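import Pool.Agent.Run7.h113.FE.Conv

/-!
# Euler products over random vectors of coefficients: definitions

`α p r j`, `j` in a finite set `J`, are complex numbers of absolute value at most `1`: the normalised eigenvalues of
Frobenius at the prime `p` of the member of the family with the vector of coefficients `r` modulo `p`.

* `red p c` (`Pool.Agent.Y722.HS`): the vector `c` of integers modulo `p`; `box ι H`: the integer vectors of height at
  most `H`.
* `Om ι`: the families of vectors modulo the primes; `mu ι`: the product of the uniform probability measures, so the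
  vectors modulo the primes are independent and uniformly distributed (`Run7.h113.FE`).
-/

set_option autoImplicit false

namespace Run7.h113.HC

open MeasureTheory Filter Topology
open Pool.Agent.Y722.HS (red box)
open Run7.h113.FE

variable {ι : Type} [Fintype ι] [DecidableEq ι] {J : Type} [Fintype J]

/-- The Euler product of the member `c`, at the point `1 + s`. -/
noncomputable def LFun (α : (p : Nat.Primes) → (ι → ZMod p) → J → ℂ) (c : ι → ℤ) (s : ℂ) : ℂ :=
  ∏' p : Nat.Primes, ∏ j, (1 - α p (red (p : ℕ) c) j * ((p : ℕ) : ℂ) ^ (-(1 + s)))⁻¹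

/-- Its logarithm. -/
noncomputable def logL (α : (p : Nat.Primes) → (ι → ZMod p) → J → ℂ) (c : ι → ℤ) (s : ℂ) : ℂ :=
  ∑' p : Nat.Primes, ∑ j, -Complex.log (1 - α p (red (p : ℕ) c) j * ((p : ℕ) : ℂ) ^ (-(1 + s)))

/-- The logarithm of `ζ(1 + s)`. -/
noncomputable def logZeta (s : ℂ) : ℂ := ∑' p : Nat.Primes, -Complex.log (1 - ((p : ℕ) : ℂ) ^ (-(1 + s)))

/-- The logarithm of the quotient of the Euler product at the point `1 + s` by `ζ(1 + s) ^ ρ`. -/
noncomputable def logQ (ρ : ℝ) (α : (p : Nat.Primes) → (ι → ZMod p) → J → ℂ) (c : ι → ℤ) (s : ℂ) : ℂ :=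
  logL α c s - (ρ : ℂ) * logZeta s

/-- The same for the vectors `ω p` modulo the primes `p ≤ y`. -/
noncomputable def partialQ (ρ : ℝ) (α : (p : Nat.Primes) → (ι → ZMod p) → J → ℂ) (y : ℕ) (ω : Om ι) (s : ℂ) : ℂ :=
  ∑ p ∈ pr y, ((∑ j, -Complex.log (1 - α p (ω p) j * ((p : ℕ) : ℂ) ^ (-(1 + s)))) -
    (ρ : ℂ) * -Complex.log (1 - ((p : ℕ) : ℂ) ^ (-(1 + s))))

open Classical in
/-- The restriction of a function to `K`, as a continuous function (`0` if it is not continuous). -/
noncomputable def toC (K : Set ℂ) (F : ℂ → ℂ) : C(K, ℂ) :=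
  if h : ContinuousOn F K then ⟨K.domRestrict F, continuousOn_iff_continuous_domRestrict.mp h⟩ else 0

/-- The mean value over the integer vectors of height at most `H`. -/
noncomputable def mean (ι : Type) [Fintype ι] [DecidableEq ι] (H : ℕ) (g : (ι → ℤ) → ℝ) : ℝ :=
  (∑ c ∈ box ι H, g c) / (2 * H + 1 : ℝ) ^ Fintype.card ι

/-- The logarithms are logarithms, and the quotient is analytic in the open half-plane of absolute convergence. -/
def EulerLogs (ρ : ℝ) (α : (p : Nat.Primes) → (ι → ZMod p) → J → ℂ) : Prop :=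
  (∀ s : ℂ, 0 < s.re → Complex.exp (logZeta s) = riemannZeta (1 + s)) ∧
  ∀ c : ι → ℤ, (∀ s : ℂ, 0 < s.re → Complex.exp (logL α c s) = LFun α c s) ∧
    DifferentiableOn ℂ (logQ ρ α c) {s | 0 < s.re}

/-- Almost surely the logarithm `Φ` of the random Euler product is analytic in `Re s > -1/2`, the locally uniform limit
of the partial sums over `p ≤ 2^k`, and on the closed half-plane `Re s ≥ 0` the locally uniform limit of all the partial
sums. -/
def Converges (ρ : ℝ) (α : (p : Nat.Primes) → (ι → ZMod p) → J → ℂ) (Φ : Om ι → ℂ → ℂ) : Prop :=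
  ∀ᵐ ω ∂mu ι, DifferentiableOn ℂ (Φ ω) {s | -(1 / 2) < s.re} ∧
    TendstoLocallyUniformlyOn (fun k : ℕ => partialQ ρ α (2 ^ k) ω) (Φ ω) atTop {s | -(1 / 2) < s.re} ∧
    ∀ K : Set ℂ, IsCompact K → (∀ s ∈ K, 0 ≤ s.re) →
      TendstoUniformlyOn (fun y : ℕ => partialQ ρ α y ω) (Φ ω) atTop K

/-- **The functional limit theorem**: convergence in distribution of the quotient at the distance `ε_H` from the edge,
uniformly on compact subsets of the closed half-plane. -/
def FunctionalLimit (ρ : ℝ) (α : (p : Nat.Primes) → (ι → ZMod p) → J → ℂ) (Φ : Om ι → ℂ → ℂ) : Prop :=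
  ∀ K : Set ℂ, IsCompact K → (∀ s ∈ K, 0 ≤ s.re) → ∀ ε : ℕ → ℝ, (∀ H, 0 < ε H) → Tendsto ε atTop (𝓝 0) →
    Tendsto (fun H : ℕ => ε H * Real.log H) atTop atTop → ∀ G : C(K, ℂ) → ℝ, Continuous G → (∃ B, ∀ x, |G x| ≤ B) →
      Integrable (fun ω => G (toC K (Φ ω))) (mu ι) ∧
      Tendsto (fun H : ℕ => mean ι H fun c => G (toC K fun s => logQ ρ α c (ε H + s))) atTop
        (𝓝 (∫ ω, G (toC K (Φ ω)) ∂mu ι))

/-- **The limit law of the leading coefficient** of the pole of order `ρ`. -/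
def LeadingCoefficient (ρ : ℝ) (α : (p : Nat.Primes) → (ι → ZMod p) → J → ℂ) (Φ : Om ι → ℂ → ℂ) : Prop :=
  ∀ ε : ℕ → ℝ, (∀ H, 0 < ε H) → Tendsto ε atTop (𝓝 0) →
    Tendsto (fun H : ℕ => ε H * Real.log H) atTop atTop → ∀ G : ℝ → ℝ, Continuous G → (∃ B, ∀ x, |G x| ≤ B) →
      Integrable (fun ω => G (Φ ω 0).re) (mu ι) ∧
      Tendsto (fun H : ℕ => mean ι H fun c => G (Real.log (ε H ^ ρ * ‖LFun α c (ε H)‖))) atTop
        (𝓝 (∫ ω, G (Φ ω 0).re ∂mu ι))

/-- **Large deviations**, for the random Euler product and for the members of height at most `H`. -/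
def Tails (ρ : ℝ) (α : (p : Nat.Primes) → (ι → ZMod p) → J → ℂ) (Φ : Om ι → ℂ → ℂ) (C : ℝ) : Prop :=
  ∀ V : ℝ, C ≤ V →
    (∀ s : ℂ, 0 ≤ s.re →
      (mu ι).real {ω | V ≤ ‖Φ ω s‖} ≤ Real.exp (-Real.exp (Real.exp ((V - C) / (Fintype.card J + 1 + |ρ - 1|))))) ∧
    ∀ H : ℕ, 2 ≤ H → ∀ s : ℂ, 1 / Real.log H ≤ s.re →
      (((box ι H).filter fun c => V ≤ ‖logQ ρ α c s‖).card : ℝ) / (2 * H + 1 : ℝ) ^ Fintype.card ι ≤
        Real.exp (-Real.exp (Real.exp ((V - C) / (Fintype.card J + 1 + |ρ - 1|)))) + C / Real.log H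

/-- The whole theorem for a system of local data: there is a random Euler product, with a pole of order `ρ` at the edge,
to which the Euler products of the members of the family converge in distribution. -/
def HasRandomEulerProduct (ρ : ℝ) (α : (p : Nat.Primes) → (ι → ZMod p) → J → ℂ) : Prop :=
  EulerLogs ρ α ∧ ∃ (Φ : Om ι → ℂ → ℂ) (C : ℝ), 0 ≤ C ∧ Converges ρ α Φ ∧ FunctionalLimit ρ α Φ ∧
    LeadingCoefficient ρ α Φ ∧ Tails ρ α Φ C

end Run7.h113.HC
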