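import Pool.Agent.Run7.h113.FE.Lin

/-!
# The local functions of a system of Frobenius eigenvalues whose traces have a mean value
-/

set_option autoImplicit false

namespace Run7.h113.HC

open Finset Filter Topology
open Pool.Agent.Y722.HS (EB EM red EM_mono)
open Run7.h113.FE

variable {m : ℕ} {ι : Type} [Fintype ι] [DecidableEq ι]

/-- The local functions of a system of eigenvalues whose traces have mean value `1 + e`. -/
noncomputable def genLoc (e : ℝ) {b : ℕ} {α : (p : Nat.Primes) → (ι → ZMod p) → Fin b → ℂ}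
    (hα : ∀ (p : Nat.Primes) (r : ι → ZMod p) (j : Fin b), ‖α p r j‖ ≤ ((p : ℕ) : ℝ) ^ m) (C1 : ℝ) (hC1 : 0 ≤ C1)
    (hm1 : ∀ p : Nat.Primes, ‖EC p (fun r => (∑ j, α p r j) / ((p : ℕ) : ℂ) ^ (m + 1)) -
      (1 + (e : ℂ)) / ((p : ℕ) : ℂ)‖ ≤ C1 * ((p : ℕ) : ℝ) ^ (-(3 / 2) : ℝ)) :
    Loc ι (b + 1 + |e|) where
  g := glin α m e
  C := 5 * (b + 1 + |e|) + C1
  C0 := by
    have := hC1
    positivity
  diff := fun p r => by
    unfold glin
    refine DifferentiableOn.sub (DifferentiableOn.fun_sum fun j _ => (diff_term p.2 (hα p r j)).fun_neg) ?_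
    exact (zeta_diff p.2).fun_neg.const_mul _
  bound := fun p r s hsH => by
    have hC := hC1
    set C := C1
    have hx0 : (0 : ℝ) < ((p : ℕ) : ℝ) ^ (-1 - s.re) := by
      have : (0 : ℝ) < ((p : ℕ) : ℝ) := by exact_mod_cast p.2.pos
      positivity
    have hsm := rpow_small p.2 hsH
    have h1 : ∀ j, ‖-Complex.log (1 - α p r j * ((p : ℕ) : ℂ) ^ (-((m : ℂ) + 1 + s)))‖ ≤
        3 * ((p : ℕ) : ℝ) ^ (-1 - s.re) := by
      intro j
      have h2 := norm_term p.2 (hα p r j) s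
      rw [norm_neg]
      refine (log1 (h2.trans hsm)).2.trans ?_
      linarith
    have h2 : ‖-Complex.log (1 - ((p : ℕ) : ℂ) ^ (-(1 + s)))‖ ≤ 3 * ((p : ℕ) : ℝ) ^ (-1 - s.re) := by
      have h3 := zeta_term p.2 s
      rw [norm_neg]
      refine (log1 (h3.trans hsm)).2.trans ?_
      linarith
    have h3 : ‖(1 + (e : ℂ))‖ ≤ 1 + |e| := by
      refine (norm_add_le _ _).trans ?_
      rw [norm_one, Complex.norm_real, Real.norm_eq_abs]
    unfold glin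
    refine (norm_sub_le _ _).trans ?_
    have h4 : ‖∑ j, -Complex.log (1 - α p r j * ((p : ℕ) : ℂ) ^ (-((m : ℂ) + 1 + s)))‖ ≤
        b * (3 * ((p : ℕ) : ℝ) ^ (-1 - s.re)) := by
      refine (norm_sum_le _ _).trans ((Finset.sum_le_sum fun j _ => h1 j).trans ?_)
      rw [Finset.sum_const, nsmul_eq_mul, Finset.card_univ, Fintype.card_fin]
    have h5 : ‖(1 + (e : ℂ)) * -Complex.log (1 - ((p : ℕ) : ℂ) ^ (-(1 + s)))‖ ≤
        (1 + |e|) * (3 * ((p : ℕ) : ℝ) ^ (-1 - s.re)) := by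
      rw [norm_mul]
      gcongr
    have he := abs_nonneg e
    have hb : (0 : ℝ) ≤ b := Nat.cast_nonneg b
    calc _ ≤ b * (3 * ((p : ℕ) : ℝ) ^ (-1 - s.re)) + (1 + |e|) * (3 * ((p : ℕ) : ℝ) ^ (-1 - s.re)) := add_le_add h4 h5
      _ = (3 * (b + 1 + |e|)) * ((p : ℕ) : ℝ) ^ (-1 - s.re) := by ring
      _ ≤ _ := by
          gcongr
          nlinarith
  mean := fun p s hsH => by
    have hC := hC1
    have hm := hm1 p
    set C := C1
    have hsr : -(1 / 2) < s.re := hsH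
    have hp0 : (0 : ℝ) < ((p : ℕ) : ℝ) := by exact_mod_cast p.2.pos
    have hp1 : (1 : ℝ) ≤ ((p : ℕ) : ℝ) := by exact_mod_cast p.2.one_lt.le
    have hx0 : (0 : ℝ) < ((p : ℕ) : ℝ) ^ (-1 - s.re) := by positivity
    have hsm := rpow_small p.2 hsH
    have he := abs_nonneg e
    have hb : (0 : ℝ) ≤ b := Nat.cast_nonneg b
    have hMc : (((p : ℕ) : ℂ) ^ Fintype.card ι) ≠ 0 := pow_ne_zero _ (by exact_mod_cast p.2.ne_zero)
    -- the quadratic error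
    have hq : (((p : ℕ) : ℝ) ^ (-1 - s.re)) ^ 2 ≤ ((p : ℕ) : ℝ) ^ (-(3 / 2) - s.re) := by
      rw [← Real.rpow_natCast, ← Real.rpow_mul hp0.le]
      apply Real.rpow_le_rpow_of_exponent_le hp1
      push_cast
      linarith
    have h1 : ∀ r : ι → ZMod p, ‖glin α m e p r s - ((∑ j, α p r j) * ((p : ℕ) : ℂ) ^ (-((m : ℂ) + 1 + s)) -
        (1 + (e : ℂ)) * ((p : ℕ) : ℂ) ^ (-(1 + s)))‖ ≤ 2 * (b + 1 + |e|) * ((p : ℕ) : ℝ) ^ (-(3 / 2) - s.re) := by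
      intro r
      have e1 : glin α m e p r s - ((∑ j, α p r j) * ((p : ℕ) : ℂ) ^ (-((m : ℂ) + 1 + s)) -
          (1 + (e : ℂ)) * ((p : ℕ) : ℂ) ^ (-(1 + s))) =
          (∑ j, -(Complex.log (1 - α p r j * ((p : ℕ) : ℂ) ^ (-((m : ℂ) + 1 + s))) +
            α p r j * ((p : ℕ) : ℂ) ^ (-((m : ℂ) + 1 + s)))) +
          (1 + (e : ℂ)) * (Complex.log (1 - ((p : ℕ) : ℂ) ^ (-(1 + s))) + ((p : ℕ) : ℂ) ^ (-(1 + s))) := by
        unfold glin
        simp only [neg_add, Finset.sum_add_distrib, Finset.sum_neg_distrib, ← Finset.sum_mul]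
        ring
      rw [e1]
      have h2 : ∀ j, ‖-(Complex.log (1 - α p r j * ((p : ℕ) : ℂ) ^ (-((m : ℂ) + 1 + s))) +
            α p r j * ((p : ℕ) : ℂ) ^ (-((m : ℂ) + 1 + s)))‖ ≤ 2 * ((p : ℕ) : ℝ) ^ (-(3 / 2) - s.re) := by
        intro j
        have h3 := norm_term p.2 (hα p r j) s
        rw [norm_neg]
        refine (log1 (h3.trans hsm)).1.trans ?_
        have h4 : ‖α p r j * ((p : ℕ) : ℂ) ^ (-((m : ℂ) + 1 + s))‖ ^ 2 ≤ (((p : ℕ) : ℝ) ^ (-1 - s.re)) ^ 2 := by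
          gcongr
        linarith
      have h3 : ‖Complex.log (1 - ((p : ℕ) : ℂ) ^ (-(1 + s))) + ((p : ℕ) : ℂ) ^ (-(1 + s))‖ ≤
          2 * ((p : ℕ) : ℝ) ^ (-(3 / 2) - s.re) := by
        have h3 := zeta_term p.2 s
        refine (log1 (h3.trans hsm)).1.trans ?_
        have h4 : ‖((p : ℕ) : ℂ) ^ (-(1 + s))‖ ^ 2 ≤ (((p : ℕ) : ℝ) ^ (-1 - s.re)) ^ 2 := by
          gcongr
        linarith
      have h4 : ‖(1 + (e : ℂ))‖ ≤ 1 + |e| := by
        refine (norm_add_le _ _).trans ?_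
        rw [norm_one, Complex.norm_real, Real.norm_eq_abs]
      have h5 : ‖∑ j, -(Complex.log (1 - α p r j * ((p : ℕ) : ℂ) ^ (-((m : ℂ) + 1 + s))) +
            α p r j * ((p : ℕ) : ℂ) ^ (-((m : ℂ) + 1 + s)))‖ ≤ b * (2 * ((p : ℕ) : ℝ) ^ (-(3 / 2) - s.re)) := by
        refine (norm_sum_le _ _).trans ((Finset.sum_le_sum fun j _ => h2 j).trans ?_)
        rw [Finset.sum_const, nsmul_eq_mul, Finset.card_univ, Fintype.card_fin]
      have h6 : ‖(1 + (e : ℂ)) * (Complex.log (1 - ((p : ℕ) : ℂ) ^ (-(1 + s))) + ((p : ℕ) : ℂ) ^ (-(1 + s)))‖ ≤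
          (1 + |e|) * (2 * ((p : ℕ) : ℝ) ^ (-(3 / 2) - s.re)) := by
        rw [norm_mul]
        gcongr
      refine (norm_add_le _ _).trans ((add_le_add h5 h6).trans (le_of_eq ?_))
      ring
    have e2 : EC p (fun r => glin α m e p r s) =
        EC p (fun r => glin α m e p r s - ((∑ j, α p r j) * ((p : ℕ) : ℂ) ^ (-((m : ℂ) + 1 + s)) -
          (1 + (e : ℂ)) * ((p : ℕ) : ℂ) ^ (-(1 + s)))) +
        (EC p (fun r => (∑ j, α p r j) * ((p : ℕ) : ℂ) ^ (-((m : ℂ) + 1 + s))) -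
          (1 + (e : ℂ)) * ((p : ℕ) : ℂ) ^ (-(1 + s))) := EC_split p _ _ _
    rw [e2, glin_mean_aux]
    have t1 : ‖EC p (fun r => glin α m e p r s - ((∑ j, α p r j) * ((p : ℕ) : ℂ) ^ (-((m : ℂ) + 1 + s)) -
          (1 + (e : ℂ)) * ((p : ℕ) : ℂ) ^ (-(1 + s))))‖ ≤ 2 * (b + 1 + |e|) * ((p : ℕ) : ℝ) ^ (-(3 / 2) - s.re) := by
      unfold EC
      rw [norm_div, norm_pow, Complex.norm_natCast, div_le_iff₀ (by positivity)]
      refine (norm_sum_le _ _).trans ((Finset.sum_le_sum fun r _ => h1 r).trans ?_)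
      rw [Finset.sum_const, nsmul_eq_mul, Finset.card_univ, card_vec]
      push_cast
      rw [mul_comm]
    have t2 : ‖((p : ℕ) : ℂ) ^ (-s) * (EC p (fun r => (∑ j, α p r j) / ((p : ℕ) : ℂ) ^ (m + 1)) -
        (1 + (e : ℂ)) / ((p : ℕ) : ℂ))‖ ≤ C * ((p : ℕ) : ℝ) ^ (-(3 / 2) - s.re) := by
      rw [norm_mul, norm_cpow_p p.2]
      calc ((p : ℕ) : ℝ) ^ (-s.re) * _ ≤ ((p : ℕ) : ℝ) ^ (-s.re) * (C * ((p : ℕ) : ℝ) ^ (-(3 / 2) : ℝ)) := by gcongr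
        _ = C * (((p : ℕ) : ℝ) ^ (-(3 / 2) : ℝ) * ((p : ℕ) : ℝ) ^ (-s.re)) := by ring
        _ = _ := by
            rw [← Real.rpow_add hp0]
            congr 2
    refine (norm_add_le _ _).trans ((add_le_add t1 t2).trans ?_)
    have hy : 0 < ((p : ℕ) : ℝ) ^ (-(3 / 2) - s.re) := by positivity
    nlinarith
  edge := fun p r s hs0 => by
    have hC := hC1
    set C := C1
    have hsH : s ∈ HP := by
      change -(1 / 2) < s.re
      linarith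
    have hp0 : (0 : ℝ) < ((p : ℕ) : ℝ) := by exact_mod_cast p.2.pos
    have hp1 : (1 : ℝ) ≤ ((p : ℕ) : ℝ) := by exact_mod_cast p.2.one_lt.le
    have hx0 : (0 : ℝ) < ((p : ℕ) : ℝ) ^ (-1 - s.re) := by positivity
    have hsm := rpow_small p.2 hsH
    have hx1 : ((p : ℕ) : ℝ) ^ (-1 - s.re) ≤ 1 / ((p : ℕ) : ℝ) := by
      rw [one_div, ← Real.rpow_neg_one]
      exact Real.rpow_le_rpow_of_exponent_le hp1 (by linarith)
    have hx2 : (((p : ℕ) : ℝ) ^ (-1 - s.re)) ^ 2 ≤ ((p : ℕ) : ℝ) ^ (-(3 / 2) : ℝ) := by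
      rw [← Real.rpow_natCast, ← Real.rpow_mul hp0.le]
      apply Real.rpow_le_rpow_of_exponent_le hp1
      push_cast
      linarith
    have hgen : ∀ z : ℂ, ‖z‖ ≤ ((p : ℕ) : ℝ) ^ (-1 - s.re) →
        ‖-Complex.log (1 - z)‖ ≤ 1 / ((p : ℕ) : ℝ) + 2 * ((p : ℕ) : ℝ) ^ (-(3 / 2) : ℝ) := by
      intro z hz
      rw [norm_neg]
      have h1 := (log1 (hz.trans hsm)).1
      have h2 : ‖Complex.log (1 - z)‖ ≤ ‖Complex.log (1 - z) + z‖ + ‖z‖ := by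
        have := norm_sub_le (Complex.log (1 - z) + z) z
        rwa [add_sub_cancel_right] at this
      have h3 : ‖z‖ ^ 2 ≤ (((p : ℕ) : ℝ) ^ (-1 - s.re)) ^ 2 := by gcongr
      linarith
    have he := abs_nonneg e
    have hb : (0 : ℝ) ≤ b := Nat.cast_nonneg b
    have h3 : ‖(1 + (e : ℂ))‖ ≤ 1 + |e| := by
      refine (norm_add_le _ _).trans ?_
      rw [norm_one, Complex.norm_real, Real.norm_eq_abs]
    unfold glin
    refine (norm_sub_le _ _).trans ?_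
    have h4 : ‖∑ j, -Complex.log (1 - α p r j * ((p : ℕ) : ℂ) ^ (-((m : ℂ) + 1 + s)))‖ ≤
        b * (1 / ((p : ℕ) : ℝ) + 2 * ((p : ℕ) : ℝ) ^ (-(3 / 2) : ℝ)) := by
      refine (norm_sum_le _ _).trans ((Finset.sum_le_sum fun j _ => hgen _ (norm_term p.2 (hα p r j) s)).trans ?_)
      rw [Finset.sum_const, nsmul_eq_mul, Finset.card_univ, Fintype.card_fin]
    have h5 : ‖(1 + (e : ℂ)) * -Complex.log (1 - ((p : ℕ) : ℂ) ^ (-(1 + s)))‖ ≤
        (1 + |e|) * (1 / ((p : ℕ) : ℝ) + 2 * ((p : ℕ) : ℝ) ^ (-(3 / 2) : ℝ)) := by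
      rw [norm_mul]
      have := hgen _ (zeta_term p.2 s)
      gcongr
    have hy : 0 < ((p : ℕ) : ℝ) ^ (-(3 / 2) : ℝ) := by positivity
    calc _ ≤ b * (1 / ((p : ℕ) : ℝ) + 2 * ((p : ℕ) : ℝ) ^ (-(3 / 2) : ℝ)) +
          (1 + |e|) * (1 / ((p : ℕ) : ℝ) + 2 * ((p : ℕ) : ℝ) ^ (-(3 / 2) : ℝ)) := add_le_add h4 h5
      _ = (b + 1 + |e|) / ((p : ℕ) : ℝ) + 2 * (b + 1 + |e|) * ((p : ℕ) : ℝ) ^ (-(3 / 2) : ℝ) := by ring
      _ ≤ _ := by
          gcongr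
          nlinarith

end Run7.h113.HC
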