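import Pool.Agent.Run7.h113.FE.Out
import Pool.Agent.Run7.h113.HC.Defs
import Pool.Agent.Run7.h113.HC.Gen

/-!
# Random Euler products: the main theorem for a system of local data with a mean value
-/

set_option autoImplicit false

namespace Run7.h113.HC

open MeasureTheory Filter Topology
open Pool.Agent.Y722.HS Run7.h113.FE

variable {ι : Type} [Fintype ι] [DecidableEq ι] {J : Type} [Fintype J]

section

variable {ρ : ℝ} {α : (p : Nat.Primes) → (ι → ZMod p) → J → ℂ}

lemma norm_one_term (hα : ∀ (p : Nat.Primes) (r : ι → ZMod p) (j : J), ‖α p r j‖ ≤ 1) (p : Nat.Primes) (r : ι → ZMod p)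
    (j : J) (s : ℂ) : ‖α p r j * ((p : ℕ) : ℂ) ^ (-(1 + s))‖ ≤ ((p : ℕ) : ℝ) ^ (-1 - s.re) := by
  have h := norm_term p.2 (m := 0) (a := α p r j) (by simpa using hα p r j) s
  simpa using h

lemma logs (hα : ∀ (p : Nat.Primes) (r : ι → ZMod p) (j : J), ‖α p r j‖ ≤ 1) (c : ι → ℤ) {s : ℂ}
    (hs : 0 < s.re) :
    Summable (fun p : Nat.Primes => ∑ j, -Complex.log (1 - α p (red (p : ℕ) c) j * ((p : ℕ) : ℂ) ^ (-(1 + s)))) ∧
    Complex.exp (logL α c s) = LFun α c s := by
  classical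
  have key := exp_tsum (b := Fintype.card J)
    (fun (p : Nat.Primes) j => α p (red (p : ℕ) c) ((Fintype.equivFin J).symm j) * ((p : ℕ) : ℂ) ^ (-(1 + s)))
    (fun p => ((p : ℕ) : ℝ) ^ (-1 - s.re)) (summable_primes hs)
    (fun p j => norm_one_term hα p _ _ s)
    (fun p j => (norm_one_term hα p _ _ s).trans (rpow_small p.2 (by linarith)))
  have e1 : (fun p : Nat.Primes => ∑ j, -Complex.log (1 - α p (red (p : ℕ) c) j * ((p : ℕ) : ℂ) ^ (-(1 + s)))) =
      fun p : Nat.Primes => ∑ j, -Complex.log (1 - α p (red (p : ℕ) c) ((Fintype.equivFin J).symm j) *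
        ((p : ℕ) : ℂ) ^ (-(1 + s))) := by
    funext p
    exact ((Fintype.equivFin J).symm.sum_comp
      (fun j => -Complex.log (1 - α p (red (p : ℕ) c) j * ((p : ℕ) : ℂ) ^ (-(1 + s))))).symm
  have e2 : LFun α c s = ∏' p : Nat.Primes, ∏ j, (1 - α p (red (p : ℕ) c) ((Fintype.equivFin J).symm j) *
        ((p : ℕ) : ℂ) ^ (-(1 + s)))⁻¹ := by
    unfold LFun
    congr 1
    funext p
    exact ((Fintype.equivFin J).symm.prod_comp
      (fun j => (1 - α p (red (p : ℕ) c) j * ((p : ℕ) : ℂ) ^ (-(1 + s)))⁻¹)).symm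
  rw [e2, e1]
  refine ⟨key.1, ?_⟩
  rw [← key.2]
  congr 1
  unfold logL
  rw [e1]

lemma zlog {s : ℂ} (hs : 0 < s.re) : Summable fun p : Nat.Primes => -Complex.log (1 - ((p : ℕ) : ℂ) ^ (-(1 + s))) := by
  refine Summable.of_norm_bounded (g := fun p : Nat.Primes => 3 * ((p : ℕ) : ℝ) ^ (-1 - s.re))
    ((summable_primes hs).mul_left 3) fun p => ?_
  have h3 := zeta_term p.2 s
  rw [norm_neg]
  refine (log1 (h3.trans (rpow_small p.2 (by linarith)))).2.trans ?_
  linarith

lemma zexp {s : ℂ} (hs : 0 < s.re) : Complex.exp (logZeta s) = riemannZeta (1 + s) :=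
  riemannZeta_eulerProduct_exp_log (s := 1 + s) (by simp only [Complex.add_re, Complex.one_re]; linarith)

variable (L : Loc ι (Fintype.card J + 1 + |ρ - 1|))
  (hL : ∀ p r s, L.g p r s = (∑ j, -Complex.log (1 - α p r j * ((p : ℕ) : ℂ) ^ (-(1 + s)))) -
    (ρ : ℂ) * -Complex.log (1 - ((p : ℕ) : ℂ) ^ (-(1 + s))))
  (hα : ∀ (p : Nat.Primes) (r : ι → ZMod p) (j : J), ‖α p r j‖ ≤ 1)

include hL

lemma part_eq (y : ℕ) (ω : Om ι) : partialQ ρ α y ω = L.sm (pr y) ω := by
  funext s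
  unfold partialQ Loc.sm
  exact Finset.sum_congr rfl fun p _ => (hL p (ω p) s).symm

include hα

lemma logQ_eq (c : ι → ℤ) {s : ℂ} (hs : 0 < s.re) : logQ ρ α c s = L.Q (redP c) s := by
  unfold logQ Loc.Q logL logZeta
  rw [← tsum_mul_left, ← ((logs hα c hs).1).tsum_sub ((zlog hs).mul_left _)]
  exact tsum_congr fun p => (hL p (redP c p) s).symm

lemma main0 : HasRandomEulerProduct ρ α := by
  have hMpos : (0 : ℝ) < Fintype.card J + 1 + |ρ - 1| := by positivity
  have hpart : ∀ y ω, partialQ ρ α y ω = L.sm (pr y) ω := part_eq L hL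
  have hlogQ : ∀ c : ι → ℤ, ∀ {s : ℂ}, 0 < s.re → logQ ρ α c s = L.Q (redP c) s := fun c s hs => logQ_eq L hL hα c hs
  refine ⟨⟨fun s hs => zexp hs, fun c => ⟨fun s hs => (logs hα c hs).2, ?_⟩⟩, ?_⟩
  · exact (L.Q_diff (redP c)).congr fun s hs => hlogQ c hs
  obtain ⟨C1, hC10, hC1⟩ := L.tail hMpos
  obtain ⟨C2, hC20, hC2⟩ := L.tail_box hMpos
  have hcontK : ∀ {K : Set ℂ}, (∀ s ∈ K, 0 ≤ s.re) → ∀ {ε : ℝ}, 0 < ε → ∀ c : ι → ℤ,
      ContinuousOn (fun s => logQ ρ α c ((ε : ℂ) + s)) K := by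
    intro K hK0 ε hε c
    have h1 : ContinuousOn (logQ ρ α c) {s | 0 < s.re} :=
      ((L.Q_diff (redP c)).congr fun s hs => hlogQ c hs).continuousOn
    refine h1.comp (by fun_prop) fun s hs => ?_
    have := hK0 s hs
    change 0 < ((ε : ℂ) + s).re
    simp only [Complex.add_re, Complex.ofReal_re]
    linarith
  have happ : ∀ {K : Set ℂ} {F : ℂ → ℂ}, ContinuousOn F K → ∀ s : K, toC K F s = F s := by
    intro K F hF s
    unfold toC
    rw [dif_pos hF]
    rfl
  refine ⟨L.Lam, max (C1 + 1) C2, by positivity, ?_, ?_, ?_, ?_⟩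
  · filter_upwards [L.ae_conv] with ω hω
    refine ⟨Loc.Lam_diff L hω, ?_, fun K hK hK0 => ?_⟩
    · simp only [hpart]
      exact hω
    · have h1 : TendstoUniformlyOn (fun (k : ℕ) s => L.sm (pr (2 ^ k)) ω s) (L.Lam ω) atTop K := by
        have h2 := (tendstoLocallyUniformlyOn_iff_forall_isCompact isOpen_HP).mp hω K (Loc.edge_sub hK0) hK
        exact h2
      have h3 := L.unif_edge hK0 ω h1
      simp only [hpart]
      exact h3
  · rintro K hK hK0 ε hε0 hε hεL G hG ⟨B, hB⟩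
    refine L.lim_final hK hK0 hε0 hε hεL (fun H c => toC K fun s => logQ ρ α c (ε H + s)) (ρ := fun _ => 0)
      tendsto_const_nhds (fun H c s => ?_) (fun ω => toC K (L.Lam ω)) ?_ G hG hB
    · rw [happ (hcontK hK0 (hε0 H) c) s, hlogQ c (by
        have := hK0 s s.2
        simp only [Complex.add_re, Complex.ofReal_re]
        have := hε0 H
        linarith), sub_self, norm_zero]
    · filter_upwards [L.ae_cont hK (Loc.edge_sub hK0)] with ω hω s
      exact happ hω s
  · rintro ε hε0 hε hεL G hG ⟨B, hB⟩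
    have hK0 : ∀ s ∈ ({0} : Set ℂ), 0 ≤ s.re := by
      intro s hs
      rw [Set.mem_singleton_iff] at hs
      rw [hs, Complex.zero_re]
    set z0 : ({0} : Set ℂ) := ⟨0, rfl⟩ with hz0
    set τ : ℕ → ℝ := fun H => ‖(ρ * Real.log (ε H * ‖riemannZeta (1 + ε H)‖) : ℝ)‖ with hτ
    have hτ0 : Tendsto τ atTop (𝓝 0) := by
      have h1 := ((zeta_res hε0 hε).const_mul ρ).norm
      rw [mul_zero, norm_zero] at h1
      exact h1
    have h1 := L.lim_final (K := {0}) isCompact_singleton hK0 hε0 hε hεL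
      (fun H c => ContinuousMap.const _ (logQ ρ α c (ε H) +
        ((ρ * Real.log (ε H * ‖riemannZeta (1 + ε H)‖) : ℝ) : ℂ))) (ρ := τ) hτ0
      (fun H c s => by
        have hs0 : (s : ℂ) = 0 := s.2
        rw [ContinuousMap.const_apply, hs0, add_zero, hlogQ c (s := (ε H : ℂ)) (by
          rw [Complex.ofReal_re]; exact hε0 H), add_sub_cancel_left, Complex.norm_real])
      (fun ω => ContinuousMap.const _ (L.Lam ω 0)) (ae_of_all _ fun ω s => by
        have hs0 : (s : ℂ) = 0 := s.2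
        rw [ContinuousMap.const_apply, hs0])
      (fun F => G (F z0).re) (hG.comp (Complex.continuous_re.comp (continuous_eval_const z0)))
      (B := B) (fun x => hB _)
    refine ⟨h1.1, ?_⟩
    refine h1.2.congr fun H => ?_
    unfold mean
    congr 1
    refine Finset.sum_congr rfl fun c _ => ?_
    rw [ContinuousMap.const_apply]
    congr 1
    have hεH := hε0 H
    have hre : 0 < ((ε H : ℝ) : ℂ).re := by rw [Complex.ofReal_re]; exact hεH
    have hL0 : LFun α c (ε H) ≠ 0 := by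
      rw [← (logs hα c hre).2]
      exact Complex.exp_ne_zero _
    have hz0' : riemannZeta (1 + ε H) ≠ 0 := by
      rw [← zexp hre]
      exact Complex.exp_ne_zero _
    have hn1 : Real.log ‖LFun α c (ε H)‖ = (logL α c (ε H)).re := by
      rw [← (logs hα c hre).2, Complex.norm_exp, Real.log_exp]
    have hn2 : Real.log ‖riemannZeta (1 + ε H)‖ = (logZeta (ε H)).re := by
      rw [← zexp hre, Complex.norm_exp, Real.log_exp]
    have hce : ((ρ : ℂ) * logZeta (ε H)).re = ρ * (logZeta (ε H)).re := by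
      rw [Complex.re_ofReal_mul]
    rw [Real.log_mul (Real.rpow_pos_of_pos hεH _).ne' (norm_ne_zero_iff.mpr hL0), Real.log_rpow hεH,
      Real.log_mul hεH.ne' (norm_ne_zero_iff.mpr hz0'), hn1, hn2, logQ, Complex.add_re, Complex.sub_re, hce,
      Complex.ofReal_re]
    ring
  · intro V hV
    have hm1 := le_max_left (C1 + 1) C2
    have hm2 := le_max_right (C1 + 1) C2
    refine ⟨fun s hs => ?_, fun H hH s hs => ?_⟩
    · have h1 := L.tail_Lam (V := V - 1) hs (fun z => hC1 (V - 1) (by linarith) s hs z)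
      rw [sub_add_cancel] at h1
      refine h1.trans ?_
      have h2 : (V - max (C1 + 1) C2) / (Fintype.card J + 1 + |ρ - 1|) ≤ (V - 1 - C1) / (Fintype.card J + 1 + |ρ - 1|) :=
        div_le_div_of_nonneg_right (by linarith) hMpos.le
      exact Real.exp_le_exp.mpr (neg_le_neg (Real.exp_le_exp.mpr (Real.exp_le_exp.mpr h2)))
    · have hHr : (2 : ℝ) ≤ H := by exact_mod_cast hH
      have hlog : 0 < Real.log H := Real.log_pos (by linarith)
      have hs0 : 0 < s.re := lt_of_lt_of_le (by positivity) hs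
      classical
      have h1 := hC2 V (hm2.trans hV) H hH s hs {c | V ≤ ‖logQ ρ α c s‖} (fun c hc => by
        rw [← hlogQ c hs0]
        exact hc)
      rw [EB_ind] at h1
      have e1 : (box ι H).filter (fun c => c ∈ {c | V ≤ ‖logQ ρ α c s‖}) =
          (box ι H).filter fun c => V ≤ ‖logQ ρ α c s‖ := by
        ext c
        simp
      rw [e1] at h1
      refine h1.trans ?_
      gcongr

end

/-- **The general theorem.** If the normalised traces have mean value `ρ + O(p^(-1/2))`, then there is a random Euler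
product with a pole of order `ρ`, to which the Euler products of the members of the family converge. -/
theorem main {ρ : ℝ} {α : (p : Nat.Primes) → (ι → ZMod p) → J → ℂ}
    (hα : ∀ (p : Nat.Primes) (r : ι → ZMod p) (j : J), ‖α p r j‖ ≤ 1) {C : ℝ} (hC : 0 ≤ C)
    (hm : ∀ p : Nat.Primes, ‖EC p (fun r => ∑ j, α p r j) - (ρ : ℂ)‖ ≤ C * ((p : ℕ) : ℝ) ^ (-(1 / 2) : ℝ)) :
    HasRandomEulerProduct ρ α := by
  classical
  set α' : (p : Nat.Primes) → (ι → ZMod p) → Fin (Fintype.card J) → ℂ :=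
    fun p r j => α p r ((Fintype.equivFin J).symm j) with hα'
  have hb : ∀ (p : Nat.Primes) (r : ι → ZMod p) (j : Fin (Fintype.card J)), ‖α' p r j‖ ≤ ((p : ℕ) : ℝ) ^ 0 := by
    intro p r j
    rw [pow_zero]
    exact hα p r _
  have hs : ∀ (p : Nat.Primes) (r : ι → ZMod p), ∑ j, α' p r j = ∑ j, α p r j := fun p r =>
    (Fintype.equivFin J).symm.sum_comp (fun j => α p r j)
  have h1 : ∀ p : Nat.Primes, ‖EC p (fun r => (∑ j, α' p r j) / ((p : ℕ) : ℂ) ^ (0 + 1)) -
      (1 + ((ρ - 1 : ℝ) : ℂ)) / ((p : ℕ) : ℂ)‖ ≤ C * ((p : ℕ) : ℝ) ^ (-(3 / 2) : ℝ) := by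
    intro p
    have hp0 : (0 : ℝ) < ((p : ℕ) : ℝ) := by exact_mod_cast p.2.pos
    have hpc : ((p : ℕ) : ℂ) ≠ 0 := by exact_mod_cast p.2.ne_zero
    have e1 : EC p (fun r => (∑ j, α' p r j) / ((p : ℕ) : ℂ) ^ (0 + 1)) - (1 + ((ρ - 1 : ℝ) : ℂ)) / ((p : ℕ) : ℂ) =
        (EC p (fun r => ∑ j, α p r j) - (ρ : ℂ)) / ((p : ℕ) : ℂ) := by
      simp only [hs, zero_add, pow_one]
      unfold EC
      rw [← Finset.sum_div]
      push_cast
      field_simp
      ring
    rw [e1, norm_div, Complex.norm_natCast, div_le_iff₀ hp0]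
    refine (hm p).trans (le_of_eq ?_)
    have e2 : ((p : ℕ) : ℝ) ^ (-(1 / 2) : ℝ) = ((p : ℕ) : ℝ) ^ (-(3 / 2) : ℝ) * ((p : ℕ) : ℝ) := by
      nth_rw 3 [← Real.rpow_one ((p : ℕ) : ℝ)]
      rw [← Real.rpow_add hp0]
      norm_num
    rw [e2]
    ring
  refine main0 (genLoc (m := 0) (ρ - 1) hb C hC h1) (fun p r s => ?_) hα
  change glin α' 0 (ρ - 1) p r s = _
  unfold glin
  have e1 : (1 + ((ρ - 1 : ℝ) : ℂ)) = (ρ : ℂ) := by push_cast; ring
  rw [e1]
  congr 1
  rw [← (Fintype.equivFin J).symm.sum_comp (fun j => -Complex.log (1 - α p r j * ((p : ℕ) : ℂ) ^ (-(1 + s))))]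
  refine Finset.sum_congr rfl fun j _ => ?_
  rw [hα']
  congr 4
  rw [Nat.cast_zero, zero_add]

end Run7.h113.HC
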