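import Pool.Agent.Run7.h113.HC.Hyp

/-!
# Mean values of products over several curves
-/

set_option autoImplicit false

namespace Run7.h113.HC

open Finset
open Run7.h113.FE
open Pool.Agent.Y57.FD.Mom (usp)

section Blocks

variable {κ : Type} [Fintype κ] [DecidableEq κ] {ι' : κ → Type} [∀ l, Fintype (ι' l)] [∀ l, DecidableEq (ι' l)]

/-- The mean value of a product of functions of different blocks of coordinates. -/
lemma EC_blocks (p : Nat.Primes) (f : ∀ l, (ι' l → ZMod p) → ℂ) :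
    EC p (fun c : (Σ l, ι' l) → ZMod p => ∏ l, f l (fun i => c ⟨l, i⟩)) = ∏ l, EC p (f l) := by
  classical
  unfold EC
  rw [Finset.prod_div_distrib]
  congr 1
  · rw [Finset.prod_univ_sum, Fintype.piFinset_univ]
    exact Fintype.sum_equiv (Equiv.piCurry fun (l : κ) (_ : ι' l) => ZMod (p : ℕ)) _ _ fun c => rfl
  · rw [Finset.prod_pow_eq_pow_sum, Fintype.card_sigma]

end Blocks

lemma prod_near' {κ : Type} [DecidableEq κ] (s : Finset κ) (x y : κ → ℂ) {B η : ℝ} (hB : 1 ≤ B) (hη : 0 ≤ η)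
    (hx : ∀ l, ‖x l‖ ≤ B) (hy : ∀ l, ‖y l‖ ≤ B) (h : ∀ l, ‖x l - y l‖ ≤ η) :
    ‖∏ l ∈ s, x l - ∏ l ∈ s, y l‖ ≤ s.card * B ^ s.card * η := by
  have hB0 : 0 ≤ B := by linarith
  induction s using Finset.induction_on with
  | empty => simp
  | insert a s ha ih =>
    rw [Finset.prod_insert ha, Finset.prod_insert ha, Finset.card_insert_of_notMem ha]
    have e : x a * ∏ l ∈ s, x l - y a * ∏ l ∈ s, y l =
        x a * (∏ l ∈ s, x l - ∏ l ∈ s, y l) + (x a - y a) * ∏ l ∈ s, y l := by ring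
    rw [e]
    have h1 : ‖∏ l ∈ s, y l‖ ≤ B ^ s.card := by
      rw [norm_prod]
      exact (Finset.prod_le_prod (fun l _ => norm_nonneg _) (fun l _ => hy l)).trans (le_of_eq (Finset.prod_const _))
    calc _ ≤ ‖x a‖ * ‖∏ l ∈ s, x l - ∏ l ∈ s, y l‖ + ‖x a - y a‖ * ‖∏ l ∈ s, y l‖ := by
          refine (norm_add_le _ _).trans ?_
          rw [norm_mul, norm_mul]
      _ ≤ B * (s.card * B ^ s.card * η) + η * B ^ s.card := by
          gcongr
          · exact hx a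
          · exact h a
      _ ≤ B * (s.card * B ^ s.card * η) + η * (B * B ^ s.card) := by
          gcongr
          exact le_mul_of_one_le_left (by positivity) hB
      _ = _ := by push_cast; ring

/-- **The joint moments of the traces of several curves.** -/
theorem mean_prod {κ : Type} [Fintype κ] [DecidableEq κ] (g : κ → ℕ)
    (β : ∀ l, (p : Nat.Primes) → (Fin (2 * g l + 1) → ZMod p) → Fin (2 * g l) → ℂ)
    (h : ∀ l, IsFrobenius (g l) (β l)) (m : κ → ℕ) (hm : ∀ l, m l ≤ 2 * g l + 3) : ∃ C : ℝ, 0 ≤ C ∧ ∀ p : Nat.Primes,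
    ‖EC p (fun c : (Σ l, Fin (2 * g l + 1)) → ZMod p => ∏ l, TT (β l) p (fun i => c ⟨l, i⟩) ^ m l) -
      ((∏ l, usp (g l) (m l) : ℝ) : ℂ)‖ ≤ C / ((p : ℕ) : ℝ) := by
  classical
  choose C hC hCm using fun l => mean_TT (h l) (m l) (hm l)
  set D : ℝ := ∑ l, C l with hD
  have hD0 : 0 ≤ D := Finset.sum_nonneg fun l _ => hC l
  set B : ℝ := 1 + D + ∑ l, |usp (g l) (m l)| with hB
  have hB1 : 1 ≤ B := by
    have : 0 ≤ ∑ l, |usp (g l) (m l)| := Finset.sum_nonneg fun l _ => abs_nonneg _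
    linarith
  refine ⟨(univ : Finset κ).card * B ^ (univ : Finset κ).card * D, by positivity, fun p => ?_⟩
  have hp0 : (0 : ℝ) < ((p : ℕ) : ℝ) := by exact_mod_cast p.2.pos
  have hp1 : (1 : ℝ) ≤ ((p : ℕ) : ℝ) := by exact_mod_cast p.2.one_lt.le
  rw [EC_blocks p (fun l r => TT (β l) p r ^ m l)]
  push_cast
  have hη : ∀ l, ‖EC p (fun r => TT (β l) p r ^ m l) - (usp (g l) (m l) : ℂ)‖ ≤ D / ((p : ℕ) : ℝ) := fun l => by
    refine (hCm l p).trans ?_
    gcongr
    exact Finset.single_le_sum (fun l _ => hC l) (mem_univ l)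
  have hDp : D / ((p : ℕ) : ℝ) ≤ D := div_le_self hD0 hp1
  have hy : ∀ l, ‖(usp (g l) (m l) : ℂ)‖ ≤ B := fun l => by
    rw [Complex.norm_real, Real.norm_eq_abs]
    have := Finset.single_le_sum (f := fun l => |usp (g l) (m l)|) (fun l _ => abs_nonneg _) (mem_univ l)
    linarith
  have hx : ∀ l, ‖EC p (fun r => TT (β l) p r ^ m l)‖ ≤ B := fun l => by
    have h1 : ‖EC p (fun r => TT (β l) p r ^ m l)‖ ≤ ‖EC p (fun r => TT (β l) p r ^ m l) - (usp (g l) (m l) : ℂ)‖ +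
        ‖(usp (g l) (m l) : ℂ)‖ := by
      have := norm_add_le (EC p (fun r => TT (β l) p r ^ m l) - (usp (g l) (m l) : ℂ)) (usp (g l) (m l) : ℂ)
      rwa [sub_add_cancel] at this
    have h2 : ‖(usp (g l) (m l) : ℂ)‖ ≤ ∑ l, |usp (g l) (m l)| := by
      rw [Complex.norm_real, Real.norm_eq_abs]
      exact Finset.single_le_sum (f := fun l => |usp (g l) (m l)|) (fun l _ => abs_nonneg _) (mem_univ l)
    have h3 := hη l
    linarith
  have h1 := prod_near' (univ : Finset κ) (fun l => EC p (fun r => TT (β l) p r ^ m l))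
    (fun l => (usp (g l) (m l) : ℂ)) hB1 (by positivity : 0 ≤ D / ((p : ℕ) : ℝ)) hx hy hη
  refine h1.trans (le_of_eq ?_)
  ring

lemma inv_le_half (p : Nat.Primes) {C : ℝ} (hC : 0 ≤ C) : C / ((p : ℕ) : ℝ) ≤ C * ((p : ℕ) : ℝ) ^ (-(1 / 2) : ℝ) := by
  have hp0 : (0 : ℝ) < ((p : ℕ) : ℝ) := by exact_mod_cast p.2.pos
  have hp1 : (1 : ℝ) ≤ ((p : ℕ) : ℝ) := by exact_mod_cast p.2.one_lt.le
  rw [div_eq_mul_inv, ← Real.rpow_neg_one]
  exact mul_le_mul_of_nonneg_left (Real.rpow_le_rpow_of_exponent_le hp1 (by norm_num)) hC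

end Run7.h113.HC
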