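import Pool.Agent.Run7.h3.ST.Brg
import Pool.Agent.Run7.h712.HE.Gra

/-!
# The means of the polynomials in the centred traces of the powers of Frobenius of a random hypersurface

`cen_near` is `one_near` of helper3 (`Run7/h3/ST/One.lean`) for the centred traces; `av_poly` is the analogue of `av_WS` of
helper712 (`Run7/h712/HE/Fun.lean`), whose functional `LF` and polynomials `AK` are used.
-/

set_option autoImplicit false
set_option linter.unusedSectionVars false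

namespace Run7.h113.HC

open Finset
open Pool.Agent.Y722.HS (Mon mev)
open Q282.CL (av av_sum av_const av_sub av_add)
open Q282MM (gm)
open Run7.h3.ST (Nr Cl Sz GG AA VW KB sp ep ep_pos ep_le_one tau ZZ nr_tau mon PV Xi dg GG_PV av_blocks gg_mom gm_odd prod_near
  eta_nonneg eta_le)
open Pool.Agent.Run7.h712.HE (gv)

section

variable {p : ℕ} [hp : Fact p.Prime] {n D : ℕ} {W : (Fin (n + 1) → KB p) → Prop} {d B : ℕ} {C₀ : ℝ}

lemma nr_cen (hW : Sz W d B C₀) (hC₀ : 0 ≤ C₀) (hd : 2 ≤ d) {b : ℕ → ℝ} {j : ℕ} (hj : j ∈ Icc 1 B)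
    (hb : |((VW W j).card : ℝ) / (p : ℝ) ^ j - b j| ≤ C₀ * (ep p * sp p d ^ j)) :
    Nr (fun e => GG W d (D := D) e) B (ep p) j (((Real.sqrt j + 1) + (j * Real.sqrt j + (C₀ + j * ((j + 3) * (1 + C₀))))) + 1)
      (fun c => tau W d b j c - Run7.h3.ST.eta j) (fun c => Real.sqrt j * GG W d j c) := by
  have h := nr_tau (D := D) hW hC₀ hd hj hb
  have hc := (Cl.const (G := fun e => GG W d (D := D) e) (B := B) (-Run7.h3.ST.eta j)).mono (le_refl 0)
    (show |-Run7.h3.ST.eta j| ≤ 1 by rw [abs_neg, abs_of_nonneg (eta_nonneg j)]; exact eta_le j)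
  have h1 := h.left.add hc
  have h2 := h.right.add hc
  rw [max_eq_left (Nat.zero_le _)] at h1 h2
  refine ⟨?_, ?_, ?_⟩
  · have e1 : (fun c : Mon n D → ZMod p => tau W d b j c - Run7.h3.ST.eta j) =
      fun c => tau W d b j c + -Run7.h3.ST.eta j := funext fun c => sub_eq_add_neg _ _
    rw [e1]
    exact h1
  · have e1 : (fun c : Mon n D → ZMod p => Real.sqrt j * GG W d j c) =
      fun c => ZZ W d j c + -Run7.h3.ST.eta j := funext fun c => by unfold ZZ; ring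
    rw [e1]
    exact h2
  · have e1 : (fun c : Mon n D → ZMod p => tau W d b j c - Run7.h3.ST.eta j - Real.sqrt j * GG W d j c) =
      fun c => tau W d b j c - ZZ W d j c := funext fun c => by unfold ZZ; ring
    rw [e1]
    refine h.near.mono le_rfl ?_
    have := (ep_pos (p := p)).le
    nlinarith

lemma sg_PV {e : ℕ} (he : 1 ≤ e) :
    (fun c => Real.sqrt e * GG W d (D := D) e c) ∈ PV (fun (v : Fin (n + 1) → KB p) (c : Mon n D → ZMod p) => Xi v c) dg (AA W e) e := by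
  have h1 := Submodule.smul_mem _ (Real.sqrt e) (GG_PV (W := W) (d := d) (D := D) he)
  convert h1 using 1
  funext c
  rfl

end

lemma gv_eq (j a : ℕ) : Real.sqrt j ^ a * (gm a : ℝ) = gv j a := by
  unfold gv
  by_cases h : Even a
  · obtain ⟨k, rfl⟩ := h
    have h1 : (k + k) / 2 = k := by omega
    rw [h1, ← two_mul, pow_mul, Real.sq_sqrt (Nat.cast_nonneg _), mul_comm]
  · rw [gm_odd h]
    simp

/-- **joint moments of the centred normalised traces of powers of Frobenius** -/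
theorem cen_near (n d D B : ℕ) (C₀ : ℝ) (hC₀ : 0 ≤ C₀) (a : ℕ → ℕ) (hd : 2 ≤ d) (ha : ∑ j ∈ Icc 1 B, j * a j ≤ D + 1) :
    ∃ C : ℝ, 0 ≤ C ∧ ∀ (p : ℕ) [Fact p.Prime] (W : (Fin (n + 1) → KB p) → Prop) (b : ℕ → ℝ), Sz W d B C₀ →
      (∀ j ∈ Icc 1 B, |((VW W j).card : ℝ) / (p : ℝ) ^ j - b j| ≤ C₀ * (ep p * sp p d ^ j)) →
      |av (fun c : Mon n D → ZMod p => ∏ j ∈ Icc 1 B, (tau W d b j c - Run7.h3.ST.eta j) ^ a j) -
        ∏ j ∈ Icc 1 B, gv j (a j)| ≤ C * ep p := by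
  classical
  have hx : ∀ e b : ℕ, ∃ C : ℝ, 0 ≤ C ∧ (e ∈ Icc 1 B → e * b ≤ D + 1 → ∀ (p : ℕ) [Fact p.Prime] (W : (Fin (n + 1) → KB p) → Prop), Sz W d B C₀ →
      |av (fun c : Mon n D → ZMod p => GG W d e c ^ b) - (gm b : ℝ)| ≤ C * ep p) := by
    intro e b
    by_cases h : e ∈ Icc 1 B ∧ e * b ≤ D + 1
    · obtain ⟨C, hC, hC'⟩ := gg_mom n d D B e b C₀ hC₀ hd h.1 h.2
      exact ⟨C, hC, fun _ _ => hC'⟩
    · exact ⟨0, le_rfl, fun h1 h2 => absurd ⟨h1, h2⟩ h⟩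
  choose C₁ hC₁ hgg using hx
  obtain ⟨C₂, hC₂⟩ : ∃ C₂, C₂ = ∑ e ∈ Icc 1 B, ∑ b ∈ range (D + 2), C₁ e b := ⟨_, rfl⟩
  have hC₂0 : 0 ≤ C₂ := by rw [hC₂]; exact sum_nonneg fun e _ => sum_nonneg fun b _ => hC₁ e b
  have hgg' : ∀ e ∈ Icc 1 B, ∀ b, e * b ≤ D + 1 → ∀ (p : ℕ) [Fact p.Prime] (W : (Fin (n + 1) → KB p) → Prop), Sz W d B C₀ →
      |av (fun c : Mon n D → ZMod p => GG W d e c ^ b) - (gm b : ℝ)| ≤ C₂ * ep p := by
    intro e he b hb p hp W hW
    have he1 := (mem_Icc.1 he).1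
    refine (hgg e b he hb p W hW).trans (mul_le_mul_of_nonneg_right ?_ (ep_pos (p := p)).le)
    have hbD : b ∈ range (D + 2) := by
      rw [mem_range]
      have : b ≤ e * b := Nat.le_mul_of_pos_left b he1
      omega
    rw [hC₂]
    refine le_trans (single_le_sum (f := fun b => C₁ e b) (fun b _ => hC₁ e b) hbD) ?_
    exact single_le_sum (f := fun e => ∑ b ∈ range (D + 2), C₁ e b) (fun e _ => sum_nonneg fun b _ => hC₁ e b) he
  obtain ⟨G₀, hG₀⟩ : ∃ G₀ : ℝ, G₀ = ∑ b ∈ range (D + 2), (gm b : ℝ) := ⟨_, rfl⟩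
  have hG₀0 : 0 ≤ G₀ := by rw [hG₀]; exact sum_nonneg fun b _ => Nat.cast_nonneg _
  have hgm : ∀ e, 1 ≤ e → ∀ b, e * b ≤ D + 1 → (gm b : ℝ) ≤ G₀ := by
    intro e he b hb
    rw [hG₀]
    refine single_le_sum (f := fun b => (gm b : ℝ)) (fun b _ => Nat.cast_nonneg _) ?_
    rw [mem_range]
    have : b ≤ e * b := Nat.le_mul_of_pos_left b he
    omega
  obtain ⟨M, hM⟩ : ∃ M, M = (1 + G₀ + C₂) ^ B := ⟨_, rfl⟩
  have hM1 : 1 ≤ 1 + G₀ + C₂ := by linarith
  have hmon : ∀ (p : ℕ) [Fact p.Prime] (W : (Fin (n + 1) → KB p) → Prop) (b : ℕ → ℕ), Sz W d B C₀ → ∑ e ∈ Icc 1 B, e * b e ≤ D + 1 →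
      |av (mon (fun e => GG W d (D := D) e) B b)| ≤ M := by
    intro p hp W b hW hb
    have h1 := av_blocks (W := W) (D := D) (B := B) b (fun e c => GG W d e c) (fun e he => GG_PV he) hb
    have h2 : av (mon (fun e => GG W d (D := D) e) B b) = ∏ e ∈ Icc 1 B, av (fun c : Mon n D → ZMod p => GG W d e c ^ b e) := h1
    rw [h2, abs_prod, hM]
    have h3 : ∀ e ∈ Icc 1 B, |av (fun c : Mon n D → ZMod p => GG W d e c ^ b e)| ≤ 1 + G₀ + C₂ := by
      intro e he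
      have he1 := (mem_Icc.1 he).1
      have hbe : e * b e ≤ D + 1 := le_trans (single_le_sum (f := fun e => e * b e) (fun _ _ => Nat.zero_le _) he) hb
      have h4 := hgg' e he (b e) hbe p W hW
      have h5 := hgm e he1 (b e) hbe
      have h6 := abs_sub_le (av (fun c : Mon n D → ZMod p => GG W d e c ^ b e)) (gm (b e) : ℝ) 0
      rw [sub_zero, sub_zero, abs_of_nonneg (Nat.cast_nonneg (gm (b e)) : (0 : ℝ) ≤ (gm (b e) : ℝ))] at h6
      have h7 : C₂ * ep p ≤ C₂ := mul_le_of_le_one_right hC₂0 (ep_le_one (p := p))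
      linarith
    refine (prod_le_prod (fun e _ => abs_nonneg _) h3).trans ?_
    rw [prod_const, Nat.card_Icc, Nat.add_sub_cancel]
  obtain ⟨cj, hcj⟩ : ∃ cj : ℕ → ℝ, cj = fun (j : ℕ) =>
    ((Real.sqrt j + 1) + (j * Real.sqrt j + (C₀ + j * ((j + 3) * (1 + C₀))))) + 1 := ⟨_, rfl⟩
  obtain ⟨dj, hdj⟩ : ∃ dj : ℕ → ℝ, dj = fun (j : ℕ) => Real.sqrt j ^ (a j) * C₂ := ⟨_, rfl⟩
  have hdj0 : ∀ j, 0 ≤ dj j := fun j => by
    rw [hdj]
    positivity
  refine ⟨(∏ j ∈ Icc 1 B, (2 * (2 * cj j) ^ a j)) * M + ∏ j ∈ Icc 1 B, (1 + dj j + |gv j (a j)|), ?_, fun p hp W bb hW hbb => ?_⟩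
  · have h1 : ∀ j, 0 ≤ cj j := fun j => by rw [hcj]; positivity
    have h2 : 0 ≤ M := by rw [hM]; positivity
    have h3 : 0 ≤ ∏ j ∈ Icc 1 B, (2 * (2 * cj j) ^ a j) := prod_nonneg fun j _ => by have := h1 j; positivity
    have h4 : 0 ≤ ∏ j ∈ Icc 1 B, (1 + dj j + |gv j (a j)|) := prod_nonneg fun j _ => by have := hdj0 j; positivity
    positivity
  have hep := (ep_pos (p := p)).le
  have hep1 := ep_le_one (p := p)
  have h1 : Nr (fun e => GG W d (D := D) e) B (ep p) (∑ j ∈ Icc 1 B, j * a j) (∏ j ∈ Icc 1 B, (2 * (2 * cj j) ^ a j))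
      (fun c => ∏ j ∈ Icc 1 B, (tau W d bb j c - Run7.h3.ST.eta j) ^ a j)
      (fun c => ∏ j ∈ Icc 1 B, (Real.sqrt j * GG W d j c) ^ a j) := by
    refine Nr.prod hep (Icc 1 B) fun j hj => ?_
    have h2 := (nr_cen (D := D) hW hC₀ hd hj (hbb j hj)).pow hep (a j)
    rw [hcj]
    exact h2
  have h2 := h1.near.av_le (M := M) (fun b hb => hmon p W b hW (hb.trans ha))
  rw [av_sub] at h2
  have h3 := av_blocks (W := W) (D := D) (B := B) a (fun e c => Real.sqrt e * GG W d e c) (fun e he => sg_PV he) ha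
  rw [h3] at h2
  have h4 : |∏ j ∈ Icc 1 B, av (fun c : Mon n D → ZMod p => (Real.sqrt j * GG W d j c) ^ a j) - ∏ j ∈ Icc 1 B, gv j (a j)| ≤
      (∏ j ∈ Icc 1 B, (1 + dj j + |gv j (a j)|)) * ep p := by
    refine prod_near (Icc 1 B) _ _ dj (fun j => |gv j (a j)|) hep hep1 (fun j _ => hdj0 j) (fun j hj => ?_) (fun j _ => le_rfl)
    have hja : j * a j ≤ D + 1 := le_trans (single_le_sum (f := fun e => e * a e) (fun _ _ => Nat.zero_le _) hj) ha
    have h5 : av (fun c : Mon n D → ZMod p => (Real.sqrt j * GG W d j c) ^ a j) =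
        Real.sqrt j ^ (a j) * av (fun c : Mon n D → ZMod p => GG W d j c ^ (a j)) := by
      rw [← Q282.CL.av_mul]
      congr 1
      funext c
      rw [mul_pow]
    rw [h5, ← gv_eq, ← mul_sub, abs_mul, abs_of_nonneg (by positivity), hdj]
    simp only
    rw [mul_assoc _ C₂]
    exact mul_le_mul_of_nonneg_left (hgg' j hj (a j) hja p W hW) (by positivity)
  have h5 := abs_sub_le (av (fun c : Mon n D → ZMod p => ∏ j ∈ Icc 1 B, (tau W d bb j c - Run7.h3.ST.eta j) ^ a j))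
    (∏ j ∈ Icc 1 B, av (fun c : Mon n D → ZMod p => (Real.sqrt j * GG W d j c) ^ a j)) (∏ j ∈ Icc 1 B, gv j (a j))
  rw [add_mul]
  have h6 : (∏ j ∈ Icc 1 B, (2 * (2 * cj j) ^ a j)) * ep p * M = (∏ j ∈ Icc 1 B, (2 * (2 * cj j) ^ a j)) * M * ep p := by ring
  rw [h6] at h2
  linarith

/-! ### polynomials -/

/-- the normalised trace of the `j`-th power of Frobenius of a hypersurface, up to the sign -/
noncomputable def ht (n : ℕ) {δ : ℕ} (p : ℕ) [Fact p.Prime] (j : ℕ) (c : Mon n δ → ZMod p) : ℝ :=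
  tau (Run7.h3.ST.WS (n := n) ∅ p) n (fun j => ∑ i ∈ range n, ((p : ℝ) ^ j) ^ i) j c

lemma Icc_eq (N : ℕ) : Icc 1 N = (range N).image (fun i => i + 1) := by
  ext x
  rw [mem_Icc, mem_image]
  constructor
  · rintro ⟨h1, h2⟩
    exact ⟨x - 1, mem_range.2 (by omega), by omega⟩
  · rintro ⟨i, hi, rfl⟩
    have := mem_range.1 hi
    omega

lemma prod_Icc_range (N : ℕ) (f : ℕ → ℝ) : ∏ j ∈ Icc 1 N, f j = ∏ i ∈ range N, f (i + 1) := by
  rw [Icc_eq, prod_image fun x _ y _ h => by simpa using h]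

lemma sum_Icc_range (N : ℕ) (f : ℕ → ℕ) : ∑ j ∈ Icc 1 N, f j = ∑ i ∈ range N, f (i + 1) := by
  rw [Icc_eq, sum_image fun x _ y _ h => by simpa using h]

open MvPolynomial (monomial eval) in
theorem av_poly (n δ : ℕ) (hn : 2 ≤ n) (Q : MvPolynomial ℕ ℝ) (hQ : Q ∈ Pool.Agent.Run7.h712.HE.WS (δ + 1)) :
    ∃ C : ℝ, 0 ≤ C ∧ ∀ (p : ℕ) [Fact p.Prime],
      |av (fun c : Mon n δ → ZMod p => eval (fun i => ht n p (i + 1) c - Pool.Agent.Run7.h712.HE.eta (i + 1)) Q) -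
        Pool.Agent.Run7.h712.HE.LF Q| ≤ C * ep p := by
  classical
  have hne : ∀ (p : ℕ), Nonempty (Mon n δ → ZMod p) := fun p => ⟨0⟩
  induction hQ using Submodule.span_induction with
  | mem Q hQ =>
    obtain ⟨m, hm, rfl⟩ := hQ
    have hsub : m.support ⊆ range (δ + 1) := by
      intro i hi
      have h1 : (i + 1) * m i ≤ Pool.Agent.Run7.h712.HE.wt m :=
        single_le_sum (f := fun i => (i + 1) * m i) (fun _ _ => Nat.zero_le _) hi
      have h2 : 1 ≤ m i := Nat.one_le_iff_ne_zero.2 (Finsupp.mem_support_iff.1 hi)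
      have h3 : i + 1 ≤ (i + 1) * m i := Nat.le_mul_of_pos_right _ (by omega)
      rw [mem_range]
      omega
    have hz : ∀ i ∈ range (δ + 1), i ∉ m.support → m i = 0 := fun i _ hi => Finsupp.notMem_support_iff.1 hi
    have hwt : ∑ j ∈ Icc 1 (δ + 1), j * m (j - 1) ≤ δ + 1 := by
      rw [sum_Icc_range (δ + 1) (fun j => j * m (j - 1))]
      refine le_trans (le_of_eq ?_) hm
      unfold Pool.Agent.Run7.h712.HE.wt Finsupp.sum
      symm
      refine sum_subset hsub fun i hi hi' => ?_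
      rw [hz i hi hi']
      exact mul_zero _
    have hC₀ : (0 : ℝ) ≤ (n : ℝ) := Nat.cast_nonneg _
    have hn1 : (1 : ℝ) ≤ (n : ℝ) := by exact_mod_cast (by omega : 1 ≤ n)
    obtain ⟨C, hC, h⟩ := cen_near n n δ (δ + 1) (n : ℝ) hC₀ (fun j => m (j - 1)) hn hwt
    refine ⟨C, hC, fun p hp => ?_⟩
    have h1 := h p (Run7.h3.ST.WS (n := n) ∅ p) (fun j => ∑ i ∈ range n, ((p : ℝ) ^ j) ^ i)
      (Run7.h3.ST.sz_proj (by omega) (δ + 1) p le_rfl)
      (fun j hj => Run7.h3.ST.cen_proj p hn1 (mem_Icc.1 hj).1)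
    have e1 : ∀ c : Mon n δ → ZMod p, ∏ j ∈ Icc 1 (δ + 1),
        (tau (Run7.h3.ST.WS (n := n) ∅ p) n (fun j => ∑ i ∈ range n, ((p : ℝ) ^ j) ^ i) j c - Run7.h3.ST.eta j) ^ m (j - 1) =
        eval (fun i => ht n p (i + 1) c - Pool.Agent.Run7.h712.HE.eta (i + 1)) (monomial m 1) := by
      intro c
      rw [prod_Icc_range (δ + 1) (fun j =>
        (tau (Run7.h3.ST.WS (n := n) ∅ p) n (fun j => ∑ i ∈ range n, ((p : ℝ) ^ j) ^ i) j c - Run7.h3.ST.eta j) ^ m (j - 1)),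
        MvPolynomial.eval_monomial, one_mul]
      unfold Finsupp.prod
      symm
      refine prod_subset hsub fun i hi hi' => ?_
      rw [hz i hi hi']
      exact pow_zero _
    have e2 : ∏ j ∈ Icc 1 (δ + 1), gv j (m (j - 1)) = Pool.Agent.Run7.h712.HE.LF (monomial m 1) := by
      rw [prod_Icc_range (δ + 1) (fun j => gv j (m (j - 1))), Pool.Agent.Run7.h712.HE.LF_mono]
      unfold Finsupp.prod
      symm
      refine prod_subset hsub fun i hi hi' => ?_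
      rw [hz i hi hi']
      exact Pool.Agent.Run7.h712.HE.gv_zero _
    rw [e2] at h1
    simp only [e1] at h1
    exact h1
  | zero =>
    refine ⟨0, le_rfl, fun p hp => ?_⟩
    rw [map_zero]
    simp only [map_zero]
    rw [av_const (α := Mon n δ → ZMod p) (0 : ℝ)]
    simp
  | add Q Q' _ _ h1 h2 =>
    obtain ⟨C, hC, h1⟩ := h1
    obtain ⟨C', hC', h2⟩ := h2
    refine ⟨C + C', add_nonneg hC hC', fun p hp => ?_⟩
    have h3 := h1 p
    have h4 := h2 p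
    simp only [map_add]
    rw [av_add, add_sub_add_comm, add_mul]
    exact (abs_add_le _ _).trans (add_le_add h3 h4)
  | smul a Q _ h1 =>
    obtain ⟨C, hC, h1⟩ := h1
    refine ⟨|a| * C, mul_nonneg (abs_nonneg _) hC, fun p hp => ?_⟩
    have h3 := h1 p
    simp only [MvPolynomial.smul_eval, map_smul, smul_eq_mul]
    rw [Q282.CL.av_mul, ← mul_sub, abs_mul, mul_assoc]
    exact mul_le_mul_of_nonneg_left h3 (abs_nonneg _)

end Run7.h113.HC
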