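import Pool.Agent.Run7.h113.HC.Jac

/-!
# The mean values of the traces on tensor products of exterior powers of `H¹` of products of hyperelliptic Jacobians:
the theorem
-/

set_option autoImplicit false
set_option linter.unusedSectionVars false

namespace Run7.h113.HC

open Finset
open Run7.h113.FE
open Pool.Agent.Run7.h712.HE (coe coe_succ sn sP PC PC_bound PC_mom gR deg SS points points_eq bad_card sqrt_pos
  one_le_sqrt pol)
open Pool.Agent.Y722.HS (EM)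
open Q282.CL (av av_sum av_const)

variable {R : Type} [Fintype R] [DecidableEq R] {g : R → ℕ} {ι : Type} [Fintype ι] [DecidableEq ι]
variable {β : ∀ l, (p : Nat.Primes) → (Fin (2 * g l + 1) → ZMod p) → Fin (2 * g l) → ℂ}

lemma prod_ee_le (h : ∀ l, IsFrobenius (g l) (β l)) (k : ι → ℕ) : ∃ N : ℝ, 0 ≤ N ∧
    ∀ (p : Nat.Primes) (r : (Σ l, Fin (2 * g l + 1)) → ZMod p), ‖∏ i, ee (allB β p r) (k i)‖ ≤ N := by
  refine ⟨∏ i, ((powersetCard (k i) (univ : Finset (Σ l : R, Fin (2 * g l)))).card : ℝ),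
    Finset.prod_nonneg fun i _ => Nat.cast_nonneg _, fun p r => ?_⟩
  rw [norm_prod]
  refine Finset.prod_le_prod (fun i _ => norm_nonneg _) fun i _ => ?_
  unfold ee
  exact sum_prod_le _ _ fun x => allB_norm h p r x

lemma EC_norm_le {κ : Type} [Fintype κ] [DecidableEq κ] (p : Nat.Primes) (f : (κ → ZMod p) → ℂ) {N : ℝ}
    (hf : ∀ r, ‖f r‖ ≤ N) : ‖EC p f‖ ≤ N := by
  have hp0 : (0 : ℝ) < ((p : ℕ) : ℝ) := by exact_mod_cast p.2.pos
  have hM0 : (0 : ℝ) < ((p : ℕ) : ℝ) ^ Fintype.card κ := pow_pos hp0 _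
  unfold EC
  rw [norm_div, norm_pow, Complex.norm_natCast, div_le_iff₀ hM0]
  refine (norm_sum_le _ _).trans ((Finset.sum_le_sum fun r _ => hf r).trans ?_)
  rw [Finset.sum_const, Finset.card_univ, card_vec, nsmul_eq_mul, mul_comm]
  push_cast
  exact le_rfl

lemma EC_norm_le_EM {κ : Type} [Fintype κ] [DecidableEq κ] (p : Nat.Primes) (f : (κ → ZMod p) → ℂ)
    (b : (κ → ZMod p) → ℝ) (hf : ∀ r, ‖f r‖ ≤ b r) : ‖EC p f‖ ≤ EM (p : ℕ) b := by
  unfold EC EM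
  rw [norm_div, norm_pow, Complex.norm_natCast]
  exact div_le_div_of_nonneg_right ((norm_sum_le _ _).trans (Finset.sum_le_sum fun r _ => hf r))
    (pow_nonneg (Nat.cast_nonneg _) _)

lemma EC_sub' {κ : Type} [Fintype κ] [DecidableEq κ] (p : Nat.Primes) (f f' : (κ → ZMod p) → ℂ) :
    EC p (fun r => f r - f' r) = EC p f - EC p f' := by
  unfold EC
  rw [Finset.sum_sub_distrib, sub_div]

/-- the numbers -/
lemma final_ineq {N G C M D s : ℝ} (hN : 0 ≤ N) (hG : 0 ≤ G) (hC : 0 ≤ C) (hM : 0 ≤ M) (hD : 0 ≤ D) (hs : 0 < s) :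
    (N + M) * (D / s) + C / s ≤ ((N + G) * 2 + (C + (N + M) * D)) / s := by
  have h1 : (N + M) * (D / s) + C / s = ((N + M) * D + C) / s := by ring
  rw [h1]
  apply div_le_div_of_nonneg_right _ hs.le
  have h5 : 0 ≤ (N + G) * 2 := by positivity
  linarith

lemma final_two {N G C M D s : ℝ} (hN : 0 ≤ N) (hG : 0 ≤ G) (hC : 0 ≤ C) (hM : 0 ≤ M) (hD : 0 ≤ D) (hs : 0 < s)
    (hs2 : s ≤ 2) : N + G ≤ ((N + G) * 2 + (C + (N + M) * D)) / s := by
  rw [le_div_iff₀ hs]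
  have h5 : 0 ≤ C + (N + M) * D := by positivity
  have h6 : (N + G) * s ≤ (N + G) * 2 := mul_le_mul_of_nonneg_left hs2 (by positivity)
  linarith

/-- **The mean values of the traces on the tensor products of exterior powers.** -/
theorem mean_ext (h : ∀ l, IsFrobenius (g l) (β l)) (k : ι → ℕ) (hk : ∀ l, ∑ i, k i ≤ 2 * g l + 1) :
    ∃ C : ℝ, 0 ≤ C ∧ ∀ p : Nat.Primes,
      ‖EC p (fun r => ∏ i, ee (allB β p r) (k i)) - (((gR R k : ℕ) : ℝ) : ℂ)‖ ≤ C * ((p : ℕ) : ℝ) ^ (-(1 / 2) : ℝ) := by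
  classical
  obtain ⟨M, hM, hPC⟩ := PC_bound (R := R) (d := fun l => 2 * g l) (fun l => ⟨g l, rfl⟩) k
  obtain ⟨C, hC, hmom⟩ := PC_mom (R := R) (d := fun l => 2 * g l) (fun l => ⟨g l, rfl⟩) k hk
  obtain ⟨N, hN0, hT⟩ := prod_ee_le h k
  obtain ⟨G, hG⟩ : ∃ G : ℝ, ((gR R k : ℕ) : ℝ) = G := ⟨_, rfl⟩
  have hG0 : 0 ≤ G := by rw [← hG]; exact Nat.cast_nonneg _
  obtain ⟨D, hD⟩ : ∃ D : ℝ, ∑ l, (2 * (g l : ℝ) + 1) + 2 = D := ⟨_, rfl⟩
  have hD0 : 0 ≤ D := by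
    rw [← hD]
    have : 0 ≤ ∑ l, (2 * (g l : ℝ) + 1) := sum_nonneg fun l _ => by positivity
    linarith
  have hsG : (-1 : ℝ) ^ (∑ i, k i) * G = G := by
    rcases Nat.even_or_odd (∑ i, k i) with he | ho
    · rw [he.neg_one_pow, one_mul]
    · rw [← hG, gR_odd k ho, Nat.cast_zero, mul_zero]
  obtain ⟨s, hsg⟩ : ∃ s : ℝ, (-1 : ℝ) ^ (∑ i, k i) = s := ⟨_, rfl⟩
  have hs1 : |s| = 1 := by rw [← hsg, abs_pow, abs_neg, abs_one, one_pow]
  rw [hsg] at hsG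
  refine ⟨(N + G) * 2 + (C + (N + M) * D),
    add_nonneg (mul_nonneg (add_nonneg hN0 hG0) zero_le_two) (add_nonneg hC (mul_nonneg (add_nonneg hN0 hM) hD0)),
    fun p => ?_⟩
  rw [hG]
  have hp0 : (0 : ℝ) < ((p : ℕ) : ℝ) := by exact_mod_cast p.2.pos
  have hs : 0 < Real.sqrt ((p : ℕ) : ℝ) := Real.sqrt_pos.mpr hp0
  have hrp : ((p : ℕ) : ℝ) ^ (-(1 / 2) : ℝ) = 1 / Real.sqrt ((p : ℕ) : ℝ) := by
    rw [Real.rpow_neg hp0.le, ← Real.sqrt_eq_rpow, one_div]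
  rw [hrp, mul_one_div]
  by_cases h2 : (p : ℕ) = 2
  · have h3 : ‖EC p (fun r => ∏ i, ee (allB β p r) (k i)) - ((G : ℝ) : ℂ)‖ ≤ N + G := by
      refine (norm_sub_le _ _).trans ?_
      rw [Complex.norm_real, Real.norm_eq_abs, abs_of_nonneg hG0]
      exact add_le_add (EC_norm_le p _ (hT p)) le_rfl
    refine h3.trans (final_two hN0 hG0 hC hM hD0 hs ?_)
    rw [h2, Real.sqrt_le_left (by norm_num)]
    norm_num
  · have e1 : EC p (fun r => ∏ i, ee (allB β p r) (k i)) - ((G : ℝ) : ℂ) =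
        EC p (fun r => ∏ i, ee (allB β p r) (k i) - ((s * PC (p : ℕ) (d := fun l => 2 * g l) k (cur r) : ℝ) : ℂ)) +
        ((s * (av (fun v : ∀ l, Fin (2 * g l + 1) → ZMod (p : ℕ) => PC (p : ℕ) (d := fun l => 2 * g l) k v) -
          G) : ℝ) : ℂ) := by
      rw [EC_sub', EC_real p (fun r => s * PC (p : ℕ) (d := fun l => 2 * g l) k (cur r)),
        EM_av (p : ℕ) (fun v => s * PC (p : ℕ) (d := fun l => 2 * g l) k v), Q282.CL.av_mul, mul_sub, hsG,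
        Complex.ofReal_sub, add_sub_assoc', sub_add_cancel]
    rw [e1]
    refine (norm_add_le _ _).trans ?_
    have t2 : ‖((s * (av (fun v : ∀ l, Fin (2 * g l + 1) → ZMod (p : ℕ) => PC (p : ℕ) (d := fun l => 2 * g l) k v) -
          G) : ℝ) : ℂ)‖ ≤ C / Real.sqrt ((p : ℕ) : ℝ) := by
      rw [Complex.norm_real, Real.norm_eq_abs, abs_mul, hs1, one_mul, ← hG]
      exact hmom (p : ℕ) inferInstance h2
    have t1 : ‖EC p (fun r => ∏ i, ee (allB β p r) (k i) - ((s * PC (p : ℕ) (d := fun l => 2 * g l) k (cur r) : ℝ) : ℂ))‖ ≤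
        (N + M) * (D / Real.sqrt ((p : ℕ) : ℝ)) := by
      have h3 : ∀ r : (Σ l, Fin (2 * g l + 1)) → ZMod (p : ℕ),
          ‖∏ i, ee (allB β p r) (k i) - ((s * PC (p : ℕ) (d := fun l => 2 * g l) k (cur r) : ℝ) : ℂ)‖ ≤
          (N + M) * (if Gd (p : ℕ) (cur r) then (0 : ℝ) else 1) := by
        intro r
        by_cases hg : Gd (p : ℕ) (cur r)
        · rw [if_pos hg, trace_good h p r hg k, hsg, sub_self, norm_zero, mul_zero]
        · rw [if_neg hg, mul_one]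
          refine (norm_sub_le _ _).trans (add_le_add (hT p r) ?_)
          rw [Complex.norm_real, Real.norm_eq_abs, abs_mul, hs1, one_mul]
          exact hPC (p : ℕ) inferInstance h2 (cur r)
      refine (EC_norm_le_EM p _ _ h3).trans ?_
      rw [EM_av (p : ℕ) (fun v => (N + M) * (if Gd (p : ℕ) v then (0 : ℝ) else 1)), Q282.CL.av_mul, ← hD]
      exact mul_le_mul_of_nonneg_left (bad_av (p : ℕ)) (add_nonneg hN0 hM)
    exact (add_le_add t1 t2).trans (final_ineq hN0 hG0 hC hM hD0 hs)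

end Run7.h113.HC
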