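import Mathlib
import Pool.Agent.Run7.h712.HE.Prd

/-!
# Complete homogeneous symmetric functions and power sums
-/

set_option autoImplicit false
set_option linter.unusedSectionVars false

namespace Run7.h113.HC

open Finset
open Pool.Agent.Run7.h712.HE (coe coe_succ)

variable {E : Type} [Fintype E] [DecidableEq E] (b : E → ℂ)

/-- The monomials of degree `k` in the variables `x ∈ E`, given by their exponents. -/
abbrev Mono (E : Type) [Fintype E] (k : ℕ) : Type := {f : E → Fin (k + 1) // ∑ x, (f x : ℕ) = k}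

/-- the complete homogeneous symmetric functions -/
noncomputable def hh (k : ℕ) : ℂ := ∑ f ∈ piAntidiag (univ : Finset E) k, ∏ x, b x ^ f x

lemma hh_mono (k : ℕ) : ∑ f : Mono E k, ∏ x, b x ^ (f.1 x : ℕ) = hh b k := by
  unfold hh
  refine Finset.sum_bij (fun f _ x => (f.1 x : ℕ)) (fun f _ => ?_) (fun f _ g _ h => ?_) (fun f hf => ?_) fun f _ => rfl
  · rw [mem_piAntidiag]
    exact ⟨f.2, fun x _ => mem_univ x⟩
  · exact Subtype.ext (funext fun x => Fin.ext (congrFun h x))
  · rw [mem_piAntidiag] at hf
    have h1 : ∀ x, f x < k + 1 := fun x => by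
      have h2 : f x ≤ ∑ x, f x := single_le_sum (f := f) (fun _ _ => Nat.zero_le _) (mem_univ x)
      rw [hf.1] at h2
      omega
    exact ⟨⟨fun x => ⟨f x, h1 x⟩, hf.1⟩, mem_univ _, rfl⟩

lemma hh_zero : hh b 0 = 1 := by
  unfold hh
  simp

lemma hh_shift (k j : ℕ) (hj : j ≤ k) (x : E) :
    ∑ f ∈ (piAntidiag (univ : Finset E) k).filter (fun f => j ≤ f x), ∏ y, b y ^ f y = b x ^ j * hh b (k - j) := by
  unfold hh
  rw [mul_sum]
  symm
  refine Finset.sum_bij' (fun g _ => g + Pi.single x j) (fun f _ => f - Pi.single x j) (fun g hg => ?_) (fun f hf => ?_)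
    (fun g _ => ?_) (fun f hf => ?_) (fun g _ => ?_)
  · rw [mem_piAntidiag] at hg
    rw [mem_filter, mem_piAntidiag]
    refine ⟨⟨?_, fun y _ => mem_univ y⟩, ?_⟩
    · simp only [Pi.add_apply]
      rw [sum_add_distrib, hg.1, Finset.sum_pi_single', if_pos (mem_univ x)]
      omega
    · rw [Pi.add_apply, Pi.single_eq_same]
      omega
  · rw [mem_filter, mem_piAntidiag] at hf
    rw [mem_piAntidiag]
    refine ⟨?_, fun y _ => mem_univ y⟩
    have h1 : ∑ y, (f y - (Pi.single x j : E → ℕ) y) + ∑ y, (Pi.single x j : E → ℕ) y = ∑ y, f y := by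
      rw [← sum_add_distrib]
      refine sum_congr rfl fun y _ => ?_
      by_cases h : y = x
      · subst h
        rw [Pi.single_eq_same]
        have := hf.2
        omega
      · rw [Pi.single_eq_of_ne h]
        omega
    rw [hf.1.1, Finset.sum_pi_single', if_pos (mem_univ x)] at h1
    simp only [Pi.sub_apply]
    omega
  · funext y
    simp only [Pi.add_apply, Pi.sub_apply]
    omega
  · rw [mem_filter] at hf
    funext y
    simp only [Pi.add_apply, Pi.sub_apply]
    by_cases h : y = x
    · subst h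
      rw [Pi.single_eq_same]
      have := hf.2
      omega
    · rw [Pi.single_eq_of_ne h]
      omega
  · simp only [Pi.add_apply, pow_add]
    rw [prod_mul_distrib, mul_comm]
    congr 1
    rw [prod_eq_single x]
    · rw [Pi.single_eq_same]
    · intro y _ hy
      rw [Pi.single_eq_of_ne hy, pow_zero]
    · intro h
      exact absurd (mem_univ x) h

/-- Newton's identities for the complete homogeneous symmetric functions. -/
lemma hh_newton (k : ℕ) : ((k : ℂ) + 1) * hh b (k + 1) =
    ∑ j ∈ range (k + 1), (∑ x, b x ^ (j + 1)) * hh b (k - j) := by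
  have h1 : ((k : ℂ) + 1) * hh b (k + 1) =
      ∑ f ∈ piAntidiag (univ : Finset E) (k + 1), ∑ x, (f x : ℂ) * ∏ y, b y ^ f y := by
    unfold hh
    rw [mul_sum]
    refine sum_congr rfl fun f hf => ?_
    rw [mem_piAntidiag] at hf
    rw [← sum_mul]
    congr 1
    have h2 : ((∑ x, f x : ℕ) : ℂ) = ((k + 1 : ℕ) : ℂ) := by rw [hf.1]
    push_cast at h2
    exact h2.symm
  rw [h1, sum_comm]
  simp only [sum_mul]
  rw [sum_comm (s := range (k + 1))]
  refine sum_congr rfl fun x _ => ?_
  have h2 : ∀ f ∈ piAntidiag (univ : Finset E) (k + 1), (f x : ℂ) * ∏ y, b y ^ f y =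
      ∑ j ∈ range (k + 1), if j + 1 ≤ f x then ∏ y, b y ^ f y else 0 := by
    intro f hf
    rw [mem_piAntidiag] at hf
    have h3 : f x ≤ k + 1 := by
      have h4 : f x ≤ ∑ x, f x := single_le_sum (f := f) (fun _ _ => Nat.zero_le _) (mem_univ x)
      rwa [hf.1] at h4
    rw [← sum_filter, sum_const, nsmul_eq_mul]
    congr 2
    have h4 : (range (k + 1)).filter (fun j => j + 1 ≤ f x) = range (f x) := by
      ext j
      rw [mem_filter, mem_range, mem_range]
      omega
    rw [h4, card_range]
  rw [sum_congr rfl h2, sum_comm]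
  refine sum_congr rfl fun j hj => ?_
  have hj' := mem_range.1 hj
  rw [← sum_filter, hh_shift b (k + 1) (j + 1) (by omega) x]
  congr 2
  omega

/-- The complete homogeneous symmetric functions from the power sums. -/
lemma hh_coe (t : ℕ → ℝ) (n : ℕ) (h : ∀ j, j < n → ∑ x, b x ^ (j + 1) = ((t j : ℝ) : ℂ)) :
    ∀ k, k ≤ n → hh b k = ((coe t k : ℝ) : ℂ) := by
  intro k
  induction k using Nat.strong_induction_on with
  | _ k ih =>
    intro hk
    rcases k with _ | k
    · rw [hh_zero, coe]
      norm_num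
    · have h1 := hh_newton b k
      have h2 := coe_succ t k
      have h3 : ((k : ℂ) + 1) ≠ 0 := by exact_mod_cast Nat.succ_ne_zero k
      apply mul_left_cancel₀ h3
      rw [h1]
      have h4 : (((k : ℂ) + 1) * ((coe t (k + 1) : ℝ) : ℂ)) = ((∑ j ∈ range (k + 1), t j * coe t (k - j) : ℝ) : ℂ) := by
        rw [← h2]
        push_cast
        ring
      rw [h4]
      push_cast
      refine Finset.sum_congr rfl fun j hj => ?_
      have hj' : j < k + 1 := Finset.mem_range.mp hj
      rw [ih (k - j) (by omega) (by omega), h j (by omega)]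

end Run7.h113.HC
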