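import Pool.Agent.Run7.h113.HC.Cen
import Pool.Agent.Run7.h113.HC.Hom
import Pool.Agent.Run7.h113.FE.Sq
import Pool.Agent.Run7.h113.HC.Ext

/-!
# The mean values of the traces on tensor products of symmetric powers of the primitive cohomology of hypersurfaces of
even dimension
-/

set_option autoImplicit false
set_option linter.unusedSectionVars false

namespace Run7.h113.HC

open Finset
open Run7.h113.FE
open Pool.Agent.Y722.HS (Mon mev EM form IsSmooth IsBad)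
open Q282.CL (av av_sum av_const av_sub av_add av_mono)
open Run7.h3.ST (ep ep_pos ep_le_one prod_near av_sigma av_one few_bad)
open Pool.Agent.Run7.h712.HE (coe gr AK LF FF_eq eval_AK)
open scoped LinearAlgebra.Projectivization

/-! ### the local data -/

/-- `β p c x`, `x < b`, are the normalised eigenvalues of Frobenius at `p` on the primitive part of the middle cohomology of
the hypersurface of degree `δ` and of dimension `2 m` with the coefficients `c` modulo `p`: for a smooth hypersurface they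
are given by the numbers of points over all finite extensions of the field with `p` elements; for a singular one they are
any numbers of absolute value at most `1`. -/
structure IsPrimitiveFrobenius (m δ b : ℕ) (β : (p : Nat.Primes) → (Mon (2 * m + 1) δ → ZMod p) → Fin b → ℂ) : Prop where
  bound : ∀ p c x, ‖β p c x‖ ≤ 1
  count : ∀ (p : Nat.Primes) (c : Mon (2 * m + 1) δ → ZMod p),
    IsSmooth (MvPolynomial.map (algebraMap (ZMod p) (AlgebraicClosure (ZMod p))) (form c)) →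
    ∀ (K : Type) [Field K] [Fintype K] [Algebra (ZMod p) K] (j : ℕ), 1 ≤ j → Fintype.card K = (p : ℕ) ^ j →
      (Nat.card {P : ℙ K (Fin (2 * m + 1 + 1) → K) // MvPolynomial.aeval P.rep (form c) = 0} : ℂ) =
        ∑ i ∈ range (2 * m + 1), (((p : ℕ) : ℂ) ^ j) ^ i + (((p : ℕ) : ℂ) ^ j) ^ m * ∑ x, β p c x ^ j

lemma form_cast {n δ : ℕ} (p : ℕ) [NeZero p] (c : Mon n δ → ZMod p) :
    MvPolynomial.map (algebraMap ℤ (ZMod p)) (form fun μ => ((c μ).val : ℤ)) = form c := by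
  unfold form
  rw [map_sum]
  refine sum_congr rfl fun μ _ => ?_
  rw [map_mul, MvPolynomial.map_C, map_prod]
  congr 1
  · congr 1
    simp
  · refine prod_congr rfl fun i _ => ?_
    rw [map_pow, MvPolynomial.map_X]

lemma beta_ht {m δ b : ℕ} {β : (p : Nat.Primes) → (Mon (2 * m + 1) δ → ZMod p) → Fin b → ℂ}
    (h : IsPrimitiveFrobenius m δ b β) (p : Nat.Primes) (c : Mon (2 * m + 1) δ → ZMod p)
    (hc : IsSmooth (MvPolynomial.map (algebraMap (ZMod p) (AlgebraicClosure (ZMod p))) (form c))) (j : ℕ) :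
    ∑ x, β p c x ^ (j + 1) = ((ht (2 * m + 1) (p : ℕ) (j + 1) c : ℝ) : ℂ) := by
  classical
  have hk : Nat.card (GaloisField (p : ℕ) (j + 1)) = (p : ℕ) ^ (j + 1) := GaloisField.card (p : ℕ) (j + 1) (by omega)
  have hfin : Finite (GaloisField (p : ℕ) (j + 1)) := inferInstance
  letI : Fintype (GaloisField (p : ℕ) (j + 1)) := Fintype.ofFinite _
  have hk' : Fintype.card (GaloisField (p : ℕ) (j + 1)) = (p : ℕ) ^ (j + 1) := by rw [← Nat.card_eq_fintype_card, hk]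
  have h1 := h.count p c hc (GaloisField (p : ℕ) (j + 1)) (j + 1) (by omega) hk'
  have h2 := Run7.h3.ST.pts_sec (n := 2 * m + 1) (S := ∅) (fun G hG => absurd hG (Set.notMem_empty G)) (p : ℕ)
    (j := j + 1) (by omega) (fun μ : Mon (2 * m + 1) δ => ((c μ).val : ℤ))
  have hcc : (fun μ : Mon (2 * m + 1) δ => ((((c μ).val : ℤ)) : ZMod (p : ℕ))) = c := by
    funext μ
    simp
  rw [hcc] at h2
  have e1 : ∀ P : ℙ (GaloisField (p : ℕ) (j + 1)) (Fin (2 * m + 1 + 1) → GaloisField (p : ℕ) (j + 1)),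
      (∀ G ∈ (∅ : Set (MvPolynomial (Fin (2 * m + 1 + 1)) ℤ)) ∪ {form fun μ : Mon (2 * m + 1) δ => ((c μ).val : ℤ)},
        MvPolynomial.aeval P.rep G = 0) ↔ MvPolynomial.aeval P.rep (form c) = 0 := by
    intro P
    rw [Set.empty_union]
    simp only [Set.mem_singleton_iff, forall_eq]
    rw [← form_cast (p : ℕ) c, MvPolynomial.aeval_map_algebraMap]
  have e2 : Nat.card {P : ℙ (GaloisField (p : ℕ) (j + 1)) (Fin (2 * m + 1 + 1) → GaloisField (p : ℕ) (j + 1)) //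
      ∀ G ∈ (∅ : Set (MvPolynomial (Fin (2 * m + 1 + 1)) ℤ)) ∪ {form fun μ : Mon (2 * m + 1) δ => ((c μ).val : ℤ)},
        MvPolynomial.aeval P.rep G = 0} =
      Nat.card {P : ℙ (GaloisField (p : ℕ) (j + 1)) (Fin (2 * m + 1 + 1) → GaloisField (p : ℕ) (j + 1)) //
        MvPolynomial.aeval P.rep (form c) = 0} := Nat.card_congr (Equiv.subtypeEquivRight e1)
  rw [e2] at h2
  have hp0 : (0 : ℝ) < ((p : ℕ) : ℝ) := by exact_mod_cast p.2.pos
  have e3 : Run7.h3.ST.sp (p : ℕ) (2 * m + 1) = ((p : ℕ) : ℝ) ^ m := by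
    unfold Run7.h3.ST.sp
    rw [show 2 * m + 1 - 1 = 2 * m by omega, pow_mul, Real.sq_sqrt hp0.le]
  have hq : ((((p : ℕ) : ℝ) ^ m) ^ (j + 1)) ≠ 0 := (pow_pos (pow_pos hp0 _) _).ne'
  have h3 : ht (2 * m + 1) (p : ℕ) (j + 1) c =
      ((Nat.card {P : ℙ (GaloisField (p : ℕ) (j + 1)) (Fin (2 * m + 1 + 1) → GaloisField (p : ℕ) (j + 1)) //
        MvPolynomial.aeval P.rep (form c) = 0} : ℝ) - ∑ i ∈ range (2 * m + 1), (((p : ℕ) : ℝ) ^ (j + 1)) ^ i) /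
        (((p : ℕ) : ℝ) ^ m) ^ (j + 1) := by
    unfold ht Run7.h3.ST.tau
    rw [e3, h2]
  rw [h3]
  push_cast
  rw [h1, add_sub_cancel_left]
  have hqc : ((((p : ℕ) : ℂ) ^ m) ^ (j + 1)) ≠ 0 := by exact_mod_cast hq
  have e4 : (((p : ℕ) : ℂ) ^ (j + 1)) ^ m = (((p : ℕ) : ℂ) ^ m) ^ (j + 1) := by
    rw [← pow_mul, ← pow_mul, mul_comm]
  rw [e4, mul_div_cancel_left₀ _ hqc]

/-! ### the means -/

section Means

lemma coe_av (n δ : ℕ) (hn : 2 ≤ n) {ι : Type} [Fintype ι] [DecidableEq ι] (k : ι → ℕ) (hk : ∑ i, k i ≤ δ + 1) :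
    ∃ C : ℝ, 0 ≤ C ∧ ∀ (p : ℕ) [Fact p.Prime],
      |av (fun c : Mon n δ → ZMod p => ∏ i, coe (fun j => ht n p (j + 1) c) (k i)) - gr k| ≤ C * ep p := by
  obtain ⟨C, hC, h⟩ := av_poly n δ hn (∏ i, AK (k i))
    (Pool.Agent.Run7.h712.HE.WS.mono hk (Pool.Agent.Run7.h712.HE.WS.prod univ k (fun i => AK (k i)) fun i _ =>
      Pool.Agent.Run7.h712.HE.WS.AK (k i)))
  refine ⟨C, hC, fun p hp => ?_⟩
  have h1 := h p
  have h3 : LF (∏ i, AK (k i)) = gr k := FF_eq k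
  rw [h3] at h1
  have e1 : ∀ c : Mon n δ → ZMod p, MvPolynomial.eval
      (fun i => ht n p (i + 1) c - Pool.Agent.Run7.h712.HE.eta (i + 1)) (∏ i, AK (k i)) =
      ∏ i, coe (fun j => ht n p (j + 1) c) (k i) := by
    intro c
    rw [map_prod]
    exact prod_congr rfl fun i _ => eval_AK _ _
  simp only [e1] at h1
  exact h1

variable {Λ : Type} [Fintype Λ] [DecidableEq Λ] (n δ : Λ → ℕ) {ν : Λ → Type} [∀ l, Fintype (ν l)] [∀ l, DecidableEq (ν l)]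

/-- the product of the coefficients -/
noncomputable def PP (k : ∀ l, ν l → ℕ) (p : ℕ) [Fact p.Prime] (c : (Σ l, Mon (n l) (δ l)) → ZMod p) : ℝ :=
  ∏ l, ∏ i, coe (fun j => ht (n l) p (j + 1) fun μ => c ⟨l, μ⟩) (k l i)

lemma PP_av (hn : ∀ l, 2 ≤ n l) (k : ∀ l, ν l → ℕ) (hk : ∀ l, ∑ i, k l i ≤ δ l + 1) :
    ∃ C : ℝ, 0 ≤ C ∧ ∀ (p : ℕ) [Fact p.Prime],
      |av (PP n δ k p) - ∏ l, (gr (k l) : ℝ)| ≤ C * ep p := by
  choose C hC h using fun l => coe_av (n l) (δ l) (hn l) (k l) (hk l)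
  refine ⟨∏ l, (1 + C l + |(gr (k l) : ℝ)|), prod_nonneg fun l _ => by have := hC l; positivity, fun p hp => ?_⟩
  have h1 : av (PP n δ k p) = ∏ l, av (fun c : Mon (n l) (δ l) → ZMod p => ∏ i, coe (fun j => ht (n l) p (j + 1) c) (k l i)) :=
    av_sigma (fun l (c : Mon (n l) (δ l) → ZMod p) => ∏ i, coe (fun j => ht (n l) p (j + 1) c) (k l i))
  rw [h1]
  exact prod_near univ _ (fun l => (gr (k l) : ℝ)) C (fun l => |(gr (k l) : ℝ)|) (ep_pos (p := p)).le (ep_le_one (p := p))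
    (fun l _ => hC l) (fun l _ => h l p) (fun l _ => le_rfl)

lemma PP_sq (k : ∀ l, ν l → ℕ) (p : ℕ) [Fact p.Prime] (c : (Σ l, Mon (n l) (δ l)) → ZMod p) :
    PP n δ k p c ^ 2 = PP n δ (ν := fun l => ν l ⊕ ν l) (fun l => Sum.elim (k l) (k l)) p c := by
  unfold PP
  rw [← prod_pow]
  refine prod_congr rfl fun l _ => ?_
  rw [Fintype.prod_sum_type, sq]
  rfl

lemma PP_second (hn : ∀ l, 2 ≤ n l) (k : ∀ l, ν l → ℕ) (hk : ∀ l, 2 * ∑ i, k l i ≤ δ l + 1) :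
    ∃ V : ℝ, 0 ≤ V ∧ ∀ (p : ℕ) [Fact p.Prime], av (fun c => PP n δ k p c ^ 2) ≤ V := by
  obtain ⟨C, hC, h⟩ := PP_av n δ (ν := fun l => ν l ⊕ ν l) hn (fun l => Sum.elim (k l) (k l)) (fun l => by
    rw [Fintype.sum_sum_type]
    have := hk l
    simp only [Sum.elim_inl, Sum.elim_inr]
    omega)
  obtain ⟨G, hG⟩ : ∃ G : ℝ, ∏ l, (gr (Sum.elim (k l) (k l)) : ℝ) = G := ⟨_, rfl⟩
  refine ⟨|G| + C, by positivity, fun p hp => ?_⟩
  have h1 := h p
  rw [hG] at h1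
  have e1 : (fun c => PP n δ k p c ^ 2) = PP n δ (ν := fun l => ν l ⊕ ν l) (fun l => Sum.elim (k l) (k l)) p :=
    funext fun c => PP_sq n δ k p c
  rw [e1]
  have h2 := (abs_le.1 h1).2
  have h3 : C * ep p ≤ C := mul_le_of_le_one_right hC (ep_le_one (p := p))
  have h4 := le_abs_self G
  linarith

end Means

/-! ### the mean of the traces -/

section Main

lemma EM_eq_av {κ : Type} [Fintype κ] [DecidableEq κ] (p : Nat.Primes) (f : (κ → ZMod (p : ℕ)) → ℝ) :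
    EM (p : ℕ) f = av f := by
  unfold EM av
  rw [Fintype.card_fun, ZMod.card]
  push_cast
  rfl

lemma hh_le {E : Type} [Fintype E] [DecidableEq E] (b : E → ℂ) (hb : ∀ x, ‖b x‖ ≤ 1) (k : ℕ) :
    ‖hh b k‖ ≤ ((piAntidiag (univ : Finset E) k).card : ℝ) := by
  unfold hh
  have h1 : ∀ f ∈ piAntidiag (univ : Finset E) k, ‖∏ x, b x ^ f x‖ ≤ (1 : ℝ) := fun f _ => by
    rw [norm_prod]
    refine Finset.prod_le_one (fun x _ => norm_nonneg _) fun x _ => ?_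
    rw [norm_pow]
    exact pow_le_one₀ (norm_nonneg _) (hb x)
  have h2 := Finset.sum_le_card_nsmul _ (fun f : E → ℕ => ‖∏ x, b x ^ f x‖) 1 h1
  rw [nsmul_eq_mul, mul_one] at h2
  exact (norm_sum_le _ _).trans h2

variable {Λ : Type} [Fintype Λ] [DecidableEq Λ] {m δ b : Λ → ℕ} {ν : Λ → Type} [∀ l, Fintype (ν l)] [∀ l, DecidableEq (ν l)]
  {β : ∀ l, (p : Nat.Primes) → (Mon (2 * m l + 1) (δ l) → ZMod p) → Fin (b l) → ℂ}

/-- the trace -/
noncomputable def FF (β : ∀ l, (p : Nat.Primes) → (Mon (2 * m l + 1) (δ l) → ZMod p) → Fin (b l) → ℂ) (k : ∀ l, ν l → ℕ)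
    (p : Nat.Primes) (c : (Σ l, Mon (2 * m l + 1) (δ l)) → ZMod p) : ℂ :=
  ∏ l, ∏ i, hh (β l p fun μ => c ⟨l, μ⟩) (k l i)

lemma FF_le (hβ : ∀ l, IsPrimitiveFrobenius (m l) (δ l) (b l) (β l)) (k : ∀ l, ν l → ℕ) : ∃ N : ℝ, 0 ≤ N ∧
    ∀ (p : Nat.Primes) (c : (Σ l, Mon (2 * m l + 1) (δ l)) → ZMod p), ‖FF β k p c‖ ≤ N := by
  refine ⟨∏ l, ∏ i, ((piAntidiag (univ : Finset (Fin (b l))) (k l i)).card : ℝ),
    prod_nonneg fun l _ => prod_nonneg fun i _ => Nat.cast_nonneg _, fun p c => ?_⟩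
  unfold FF
  rw [norm_prod]
  refine Finset.prod_le_prod (fun l _ => norm_nonneg _) fun l _ => ?_
  rw [norm_prod]
  exact Finset.prod_le_prod (fun i _ => norm_nonneg _) fun i _ => hh_le _ (fun x => (hβ l).bound p _ x) _

lemma FF_good (hβ : ∀ l, IsPrimitiveFrobenius (m l) (δ l) (b l) (β l)) (k : ∀ l, ν l → ℕ)
    (p : Nat.Primes) (c : (Σ l, Mon (2 * m l + 1) (δ l)) → ZMod p)
    (hc : ∀ l, IsSmooth (MvPolynomial.map (algebraMap (ZMod p) (AlgebraicClosure (ZMod p))) (form fun μ => c ⟨l, μ⟩))) :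
    FF β k p c = ((PP (fun l => 2 * m l + 1) δ k (p : ℕ) c : ℝ) : ℂ) := by
  unfold FF PP
  push_cast
  refine prod_congr rfl fun l _ => prod_congr rfl fun i _ => ?_
  exact hh_coe _ _ (k l i) (fun j _ => beta_ht (hβ l) p _ (hc l) j) (k l i) le_rfl

open Classical in
/-- an upper bound for the indicator of the singular members -/
noncomputable def bd (p : ℕ) (c : (Σ l, Mon (2 * m l + 1) (δ l)) → ZMod p) : ℝ :=
  ∑ l, if IsBad p (fun μ => c ⟨l, μ⟩) then (1 : ℝ) else 0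

lemma bd_nonneg (p : ℕ) (c : (Σ l, Mon (2 * m l + 1) (δ l)) → ZMod p) : 0 ≤ bd p c := by
  unfold bd
  exact sum_nonneg fun l _ => by split_ifs <;> norm_num

lemma bd_one (hδ : ∀ l, 1 ≤ δ l) (p : Nat.Primes) (c : (Σ l, Mon (2 * m l + 1) (δ l)) → ZMod p)
    (h : ¬ ∀ l, IsSmooth (MvPolynomial.map (algebraMap (ZMod p) (AlgebraicClosure (ZMod p))) (form fun μ => c ⟨l, μ⟩))) :
    1 ≤ bd (p : ℕ) c := by
  classical
  push Not at h
  obtain ⟨l, h⟩ := h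
  have h1 : IsBad (p : ℕ) (fun μ => c ⟨l, μ⟩) := by
    by_contra hno
    exact h (Pool.Agent.Y722.HS.isSmooth_of_not_isBad (p : ℕ) (hδ l) _ hno)
  unfold bd
  refine le_trans (le_of_eq ?_) (single_le_sum (f := fun l => if IsBad (p : ℕ) (fun μ => c ⟨l, μ⟩) then (1 : ℝ) else 0)
    (fun l _ => by split_ifs <;> norm_num) (mem_univ l))
  rw [if_pos h1]

lemma bd_av (hδ : ∀ l, 1 ≤ δ l) : ∃ Cb : ℝ, 0 ≤ Cb ∧ ∀ (p : ℕ) [Fact p.Prime],
    av (bd (m := m) (δ := δ) p) ≤ Cb * (1 / p) := by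
  classical
  refine ⟨∑ l, ((δ l : ℝ) + (Pool.Agent.Y722.HS.Delta (2 * m l + 1) (δ l)).totalDegree + 1),
    sum_nonneg fun l _ => by positivity, fun p hp => ?_⟩
  unfold bd
  rw [Q282.CL.av_sum, sum_mul]
  refine sum_le_sum fun l _ => ?_
  refine le_trans (le_of_eq (av_one (M := fun l => Mon (2 * m l + 1) (δ l)) (F := ZMod p) l
    (fun c : Mon (2 * m l + 1) (δ l) → ZMod p => if IsBad p c then (1 : ℝ) else 0))) ?_
  rcases few_bad (n := 2 * m l + 1) (δ := δ l) p with h | h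
  · exact h
  · exact absurd h (by have := hδ l; omega)

lemma near_bd {f : ℂ} {x N s e B : ℝ} (hs : 0 < s) (he : e = 1 / s) (hN : 0 ≤ N) (hf : ‖f‖ ≤ N) (hB : 1 ≤ B) :
    ‖f - ((x : ℝ) : ℂ)‖ ≤ (N + s) * B + e * x ^ 2 := by
  have h1 : ‖f - ((x : ℝ) : ℂ)‖ ≤ N + |x| := by
    refine (norm_sub_le _ _).trans ?_
    rw [Complex.norm_real, Real.norm_eq_abs]
    linarith
  have h2 : |x| ≤ s + e * x ^ 2 := by
    rw [he, one_div, inv_mul_eq_div, ← sub_le_iff_le_add', le_div_iff₀ hs, ← sq_abs]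
    nlinarith [sq_nonneg (|x| - s), abs_nonneg x]
  have h3 : (N + s) * 1 ≤ (N + s) * B := mul_le_mul_of_nonneg_left hB (by positivity)
  linarith

lemma numbers {N Cb V C s q : ℝ} (hN : 0 ≤ N) (hCb : 0 ≤ Cb) (hs : 1 ≤ s) (hq : q = s ^ 2) {A B D : ℝ}
    (hA : A ≤ Cb * (1 / q)) (hB : B ≤ V) (hD : D ≤ C * (1 / s)) :
    (N + s) * A + 1 / s * B + D ≤ (N * Cb + Cb + V + C) * (1 / s) := by
  have hs0 : 0 < s := by linarith
  have h1 : (N + s) * A ≤ (N + s) * (Cb * (1 / q)) := mul_le_mul_of_nonneg_left hA (by positivity)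
  have h2 : 1 / s * B ≤ 1 / s * V := mul_le_mul_of_nonneg_left hB (by positivity)
  have h3 : (N + s) * (Cb * (1 / q)) ≤ (N * Cb + Cb) * (1 / s) := by
    rw [hq, mul_one_div, mul_one_div, mul_div_assoc', div_le_div_iff₀ (by positivity) hs0]
    have h4 : (N + s) * Cb * s = N * Cb * s + Cb * s ^ 2 := by ring
    have h5 : N * Cb * s ≤ N * Cb * s ^ 2 := by
      refine mul_le_mul_of_nonneg_left ?_ (by positivity)
      nlinarith
    nlinarith
  nlinarith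

/-- **The mean values of the traces on the tensor products of symmetric powers.** -/
theorem mean_hyp (hm : ∀ l, 1 ≤ m l) (hδ : ∀ l, 1 ≤ δ l) (hβ : ∀ l, IsPrimitiveFrobenius (m l) (δ l) (b l) (β l))
    (k : ∀ l, ν l → ℕ) (hk : ∀ l, 2 * ∑ i, k l i ≤ δ l + 1) :
    ∃ C : ℝ, 0 ≤ C ∧ ∀ p : Nat.Primes,
      ‖EC p (FF β k p) - ((∏ l, (gr (k l) : ℝ) : ℝ) : ℂ)‖ ≤ C * ((p : ℕ) : ℝ) ^ (-(1 / 2) : ℝ) := by
  classical
  have hn : ∀ l, 2 ≤ 2 * m l + 1 := fun l => by have := hm l; omega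
  obtain ⟨C, hC, h1⟩ := PP_av (fun l => 2 * m l + 1) δ hn k (fun l => by have := hk l; omega)
  obtain ⟨V, hV, h2⟩ := PP_second (fun l => 2 * m l + 1) δ hn k hk
  obtain ⟨N, hN, hF⟩ := FF_le hβ k
  obtain ⟨Cb, hCb, hb⟩ := bd_av (m := m) (δ := δ) hδ
  obtain ⟨G, hG⟩ : ∃ G : ℝ, ∏ l, (gr (k l) : ℝ) = G := ⟨_, rfl⟩
  refine ⟨N * Cb + Cb + V + C, add_nonneg (add_nonneg (add_nonneg (mul_nonneg hN hCb) hCb) hV) hC, fun p => ?_⟩
  have k1 := h1 (p : ℕ)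
  have k2 := h2 (p : ℕ)
  have k3 := hb (p : ℕ)
  rw [hG] at k1 ⊢
  have hp1 : (1 : ℝ) ≤ ((p : ℕ) : ℝ) := by exact_mod_cast p.2.one_lt.le
  have hp0 : (0 : ℝ) < ((p : ℕ) : ℝ) := by linarith
  have hs1 : 1 ≤ Real.sqrt ((p : ℕ) : ℝ) := Real.one_le_sqrt.mpr hp1
  have hrp : ((p : ℕ) : ℝ) ^ (-(1 / 2) : ℝ) = 1 / Real.sqrt ((p : ℕ) : ℝ) := by
    rw [Real.rpow_neg hp0.le, ← Real.sqrt_eq_rpow, one_div]
  have hep : ep (p : ℕ) = 1 / Real.sqrt ((p : ℕ) : ℝ) := rfl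
  have e1 : EC p (FF β k p) - ((G : ℝ) : ℂ) =
      EC p (fun c => FF β k p c - ((PP (fun l => 2 * m l + 1) δ k (p : ℕ) c : ℝ) : ℂ)) +
      ((av (PP (fun l => 2 * m l + 1) δ k (p : ℕ)) - G : ℝ) : ℂ) := by
    rw [EC_sub', EC_real p (fun c => PP (fun l => 2 * m l + 1) δ k (p : ℕ) c), EM_eq_av p, Complex.ofReal_sub,
      add_sub_assoc', sub_add_cancel]
  have h3 : ∀ c : (Σ l, Mon (2 * m l + 1) (δ l)) → ZMod (p : ℕ),
      ‖FF β k p c - ((PP (fun l => 2 * m l + 1) δ k (p : ℕ) c : ℝ) : ℂ)‖ ≤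
      (N + Real.sqrt ((p : ℕ) : ℝ)) * bd (p : ℕ) c + ep (p : ℕ) * PP (fun l => 2 * m l + 1) δ k (p : ℕ) c ^ 2 := by
    intro c
    by_cases hg : ∀ l, IsSmooth (MvPolynomial.map (algebraMap (ZMod p) (AlgebraicClosure (ZMod p))) (form fun μ => c ⟨l, μ⟩))
    · rw [FF_good hβ k p c hg, sub_self, norm_zero]
      have t1 : 0 ≤ (N + Real.sqrt ((p : ℕ) : ℝ)) * bd (p : ℕ) c :=
        mul_nonneg (add_nonneg hN (Real.sqrt_nonneg _)) (bd_nonneg _ _)
      have t2 : 0 ≤ ep (p : ℕ) * PP (fun l => 2 * m l + 1) δ k (p : ℕ) c ^ 2 :=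
        mul_nonneg (ep_pos (p := (p : ℕ))).le (sq_nonneg _)
      linarith
    · exact near_bd (by linarith) hep hN (hF p c) (bd_one hδ p c hg)
  have h4 : ‖EC p (fun c => FF β k p c - ((PP (fun l => 2 * m l + 1) δ k (p : ℕ) c : ℝ) : ℂ))‖ ≤
      (N + Real.sqrt ((p : ℕ) : ℝ)) * av (bd (m := m) (δ := δ) (p : ℕ)) +
        1 / Real.sqrt ((p : ℕ) : ℝ) * av (fun c => PP (fun l => 2 * m l + 1) δ k (p : ℕ) c ^ 2) := by
    refine (EC_norm_le_EM p _ _ h3).trans (le_of_eq ?_)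
    rw [EM_eq_av p, av_add, Q282.CL.av_mul, Q282.CL.av_mul, hep]
  have h5 : ‖((av (PP (fun l => 2 * m l + 1) δ k (p : ℕ)) - G : ℝ) : ℂ)‖ ≤ C * (1 / Real.sqrt ((p : ℕ) : ℝ)) := by
    rw [Complex.norm_real, Real.norm_eq_abs, ← hep]
    exact k1
  rw [e1, hrp]
  refine (norm_add_le _ _).trans ?_
  have h6 := numbers (V := V) (C := C) hN hCb hs1 (Real.sq_sqrt hp0.le).symm k3 k2 h5
  linarith

end Main

end Run7.h113.HC
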