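import Pool.Agent.Y57.FD.Mom2
import Pool.Agent.H341R2.WeilSharp

/-!
# Separable polynomials and Weil bound (from the starting file Y57/FD/HypM) for the curves `y ^ 2 = x ^ (2 g + 1) + n (2 g) x ^ (2 g) + ... + n 0` modulo `p`
-/

set_option autoImplicit false

namespace Run7.h113.HC.P

open Finset
open Pool.Agent.Y57.FD.Mom (val usp normal)

section One

variable (p : ℕ) [Fact p.Prime]

/-- the polynomial with the coefficients `u` -/
noncomputable def pol {D : ℕ} (u : Fin D → ZMod p) : Polynomial (ZMod p) :=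
  Polynomial.X ^ D + ∑ i, Polynomial.C (u i) * Polynomial.X ^ (i : ℕ)

lemma pol_eval {D : ℕ} (u : Fin D → ZMod p) (x : ZMod p) : (pol p u).eval x = val (ZMod p) D u x := by
  unfold pol Pool.Agent.Y57.FD.Mom.val
  simp [Polynomial.eval_finset_sum]

lemma deg_low {D : ℕ} (u : Fin D → ZMod p) : (∑ i, Polynomial.C (u i) * Polynomial.X ^ (i : ℕ) : Polynomial (ZMod p)).degree < D := by
  exact Polynomial.degree_sum_fin_lt u

lemma pol_monic {D : ℕ} (u : Fin D → ZMod p) : (pol p u).Monic := Polynomial.monic_X_pow_add (deg_low p u)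

lemma pol_natDegree {D : ℕ} (u : Fin D → ZMod p) : (pol p u).natDegree = D := by
  apply Polynomial.natDegree_eq_of_degree_eq_some
  unfold pol
  rw [Polynomial.degree_add_eq_left_of_degree_lt, Polynomial.degree_X_pow]
  rw [Polynomial.degree_X_pow]
  exact deg_low p u

/-- Weil's bound -/
lemma weil (hp : p ≠ 2) {g : ℕ} (u : Fin (2 * g + 1) → ZMod p) :
    |(∑ x : ZMod p, (quadraticChar (ZMod p) (val (ZMod p) (2 * g + 1) u x) : ℝ)) /
      Real.sqrt (Fintype.card (ZMod p))| ≤ 2 * g := by
  have hp' : p.Prime := Fact.out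
  have hchar : ringChar (ZMod p) ≠ 2 := by
    rw [ZMod.ringChar_zmod_n]
    exact hp
  have h1 := Pool.Agent.H341R2.Sharp.weil_sharp_monic hchar (pol_monic p u) (by rw [pol_natDegree]; omega) (by
    intro c h hc
    have h2 := pol_natDegree p u
    have h3 : pol p u ≠ 0 := (pol_monic p u).ne_zero
    have hc0 : c ≠ 0 := by
      rintro rfl
      rw [Polynomial.C_0, zero_mul] at hc
      exact h3 hc
    rw [hc, Polynomial.natDegree_C_mul hc0, Polynomial.natDegree_pow] at h2
    omega)
  simp only [pol_eval, pol_natDegree] at h1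
  have hq : (0 : ℝ) < Real.sqrt (Fintype.card (ZMod p)) := by
    apply Real.sqrt_pos.2
    rw [ZMod.card]
    exact_mod_cast hp'.pos
  rw [abs_div, abs_of_pos hq, div_le_iff₀ hq]
  refine h1.trans (le_of_eq ?_)
  push_cast
  ring

/-- there are few polynomials which are not separable -/
lemma bad_fiber {g : ℕ} (hpg : 2 * g + 1 < p) (w : Fin (2 * g) → ZMod p) :
    {z : ZMod p | ¬ (pol p (D := 2 * g + 1) (Fin.cons z w)).Separable}.ncard ≤ 2 * g + 1 := by
  classical
  obtain ⟨h, hh⟩ : ∃ h : Polynomial (ZMod p), h = pol p (D := 2 * g + 1) (Fin.cons 0 w) := ⟨_, rfl⟩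
  have hz : ∀ z : ZMod p, pol p (D := 2 * g + 1) (Fin.cons z w) = h + Polynomial.C z := by
    intro z
    rw [hh]
    unfold pol
    rw [Fin.sum_univ_succ, Fin.sum_univ_succ (f := fun i => Polynomial.C ((Fin.cons 0 w : Fin (2 * g + 1) → ZMod p) i) * Polynomial.X ^ (i : ℕ))]
    simp only [Fin.cons_zero, Fin.cons_succ, Fin.val_zero, pow_zero, mul_one, Polynomial.C_0, zero_add]
    ring
  have hd : ∀ z : ZMod p, (pol p (D := 2 * g + 1) (Fin.cons z w)).derivative = h.derivative := by
    intro z
    rw [hz, Polynomial.derivative_add, Polynomial.derivative_C, add_zero]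
  have hd0 : h.derivative ≠ 0 := by
    intro h0
    have h1 := congrArg (fun f => f.coeff (2 * g)) h0
    simp only [Polynomial.coeff_derivative, Polynomial.coeff_zero] at h1
    have h2 : h.coeff (2 * g + 1) = 1 := by
      have h3 := pol_monic p (D := 2 * g + 1) (Fin.cons 0 w)
      rw [← hh] at h3
      have h4 := h3.coeff_natDegree
      have h5 := pol_natDegree p (D := 2 * g + 1) (Fin.cons 0 w)
      rw [← hh] at h5
      rwa [h5] at h4
    rw [h2, one_mul] at h1
    have h6 : (((2 * g + 1 : ℕ)) : ZMod p) = 0 := by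
      push_cast
      push_cast at h1
      exact h1
    rw [ZMod.natCast_eq_zero_iff] at h6
    have := Nat.le_of_dvd (by omega) h6
    omega
  have hdeg : h.derivative.natDegree ≤ 2 * g + 1 := by
    have h1 := Polynomial.natDegree_derivative_le h
    have h5 := pol_natDegree p (D := 2 * g + 1) (Fin.cons 0 w)
    rw [← hh] at h5
    omega
  obtain ⟨R, hR⟩ : ∃ R : Finset (AlgebraicClosure (ZMod p)), R = (h.derivative.aroots (AlgebraicClosure (ZMod p))).toFinset := ⟨_, rfl⟩
  have hRc : R.card ≤ 2 * g + 1 := by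
    rw [hR]
    refine (Multiset.toFinset_card_le _).trans ?_
    refine (Polynomial.card_roots' _).trans ?_
    refine (Polynomial.natDegree_map_le).trans hdeg
  have hsub : (algebraMap (ZMod p) (AlgebraicClosure (ZMod p))) '' {z : ZMod p | ¬ (pol p (D := 2 * g + 1) (Fin.cons z w)).Separable} ⊆
      ((R.image (fun β => -(Polynomial.aeval β h)) : Finset (AlgebraicClosure (ZMod p))) : Set (AlgebraicClosure (ZMod p))) := by
    rintro _ ⟨z, hz1, rfl⟩
    rw [Set.mem_ofPred_eq] at hz1
    unfold Polynomial.Separable at hz1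
    rw [Polynomial.isCoprime_iff_aeval_ne_zero_of_isAlgClosed (ZMod p) (AlgebraicClosure (ZMod p))] at hz1
    push Not at hz1
    obtain ⟨β, h1, h2⟩ := hz1
    rw [hd] at h2
    rw [hz, map_add, Polynomial.aeval_C] at h1
    rw [coe_image]
    refine ⟨β, ?_, ?_⟩
    · rw [hR, mem_coe, Multiset.mem_toFinset, Polynomial.mem_aroots]
      exact ⟨hd0, h2⟩
    · exact (eq_neg_of_add_eq_zero_right h1).symm
  rw [← Set.ncard_image_of_injective _ (algebraMap (ZMod p) (AlgebraicClosure (ZMod p))).injective]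
  refine (Set.ncard_le_ncard hsub (finite_toSet _)).trans ?_
  rw [Set.ncard_coe_finset]
  exact card_image_le.trans hRc

open Classical in
lemma bad_card {g : ℕ} (hpg : 2 * g + 1 < p) :
    ((univ : Finset (Fin (2 * g + 1) → ZMod p)).filter (fun u => ¬ (pol p u).Separable)).card ≤ (2 * g + 1) * p ^ (2 * g) := by
  have h1 : ((univ : Finset (Fin (2 * g + 1) → ZMod p)).filter (fun u => ¬ (pol p u).Separable)).card =
      ∑ w : Fin (2 * g) → ZMod p, ((univ : Finset (ZMod p)).filter (fun z => ¬ (pol p (D := 2 * g + 1) (Fin.cons z w)).Separable)).card := by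
    rw [card_filter]
    simp only [card_filter]
    rw [sum_comm, ← Fintype.sum_prod_type' (f := fun (z : ZMod p) (w : Fin (2 * g) → ZMod p) =>
      if ¬ (pol p (D := 2 * g + 1) (Fin.cons z w)).Separable then 1 else 0)]
    refine (Fintype.sum_equiv (Fin.consEquiv (fun _ : Fin (2 * g + 1) => ZMod p)) _ _ ?_).symm
    intro x
    rfl
  rw [h1]
  have h2 : ∀ w : Fin (2 * g) → ZMod p,
      ((univ : Finset (ZMod p)).filter (fun z => ¬ (pol p (D := 2 * g + 1) (Fin.cons z w)).Separable)).card ≤ 2 * g + 1 := by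
    intro w
    refine le_trans (le_of_eq ?_) (bad_fiber p hpg w)
    rw [← Set.ncard_coe_finset]
    congr 1
    ext z
    simp
  refine (sum_le_sum fun w _ => h2 w).trans (le_of_eq ?_)
  rw [sum_const, card_univ, Fintype.card_pi_const, ZMod.card, smul_eq_mul]
  ring



end One

end Run7.h113.HC.P
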