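import Pool.Agent.Run7.h113.HC.Defs
import Pool.Agent.Run7.h113.FE.Sq
import Pool.Agent.Run7.h113.HC.Pol

/-!
# The moments of the normalised traces of Frobenius of hyperelliptic curves
-/

set_option autoImplicit false

namespace Run7.h113.HC

open Finset
open Run7.h113.FE
open Pool.Agent.Y57.FD.Mom (val usp normal main2)
open Run7.h113.HC.P (pol pol_eval weil bad_card)

/-- The polynomial `x ^ (2 g + 1) + r_{2g} x ^ {2 g} + ... + r_0`. -/
noncomputable def hpoly {K : Type} [Field K] {g : ℕ} (r : Fin (2 * g + 1) → K) : Polynomial K :=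
  Polynomial.X ^ (2 * g + 1) + ∑ i, Polynomial.C (r i) * Polynomial.X ^ (i : ℕ)

/-- `β p r j`, `j < 2 g`, are the normalised eigenvalues of Frobenius (complex numbers of absolute value `1`) on `H¹` of
the curve `y ^ 2 = x ^ (2 g + 1) + r_{2g} x ^ {2 g} + ... + r_0` over `𝔽_p`, if `p` is odd and the polynomial is
separable; they are determined by the numbers of the affine points over all finite extensions of `𝔽_p`. The other
`β p r j` are any complex numbers of absolute value at most `1` (for instance `0`). -/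
structure IsFrobenius (g : ℕ) (β : (p : Nat.Primes) → (Fin (2 * g + 1) → ZMod p) → Fin (2 * g) → ℂ) : Prop where
  bound : ∀ (p : Nat.Primes) (r : Fin (2 * g + 1) → ZMod p) (j : Fin (2 * g)), ‖β p r j‖ ≤ 1
  count : ∀ (p : Nat.Primes) (r : Fin (2 * g + 1) → ZMod p), (p : ℕ) ≠ 2 → (hpoly r).Separable →
    ∀ (K : Type) [Field K] [Fintype K] [Algebra (ZMod p) K] (n : ℕ), Fintype.card K = (p : ℕ) ^ n →
      (Nat.card {z : K × K // z.2 ^ 2 = (hpoly r).aeval z.1} : ℂ) =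
        ((p : ℕ) : ℂ) ^ n - ((Real.sqrt (p : ℕ) : ℝ) : ℂ) ^ n * ∑ j, β p r j ^ n

section Prime
variable (p : ℕ) [Fact p.Prime] {g : ℕ}

/-- the normalised character sum -/
noncomputable def SS (r : Fin (2 * g + 1) → ZMod p) : ℝ :=
  (∑ x : ZMod p, (quadraticChar (ZMod p) (val (ZMod p) (2 * g + 1) r x) : ℝ)) / Real.sqrt (Fintype.card (ZMod p))

lemma card_points (hp : p ≠ 2) (r : Fin (2 * g + 1) → ZMod p) :
    (Nat.card {z : ZMod p × ZMod p // z.2 ^ 2 = (hpoly r).aeval z.1} : ℝ) =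
      p + Real.sqrt p * SS p r := by
  classical
  have hp0 : (0 : ℝ) < p := by exact_mod_cast (Fact.out : p.Prime).pos
  have hs : (0 : ℝ) < Real.sqrt p := Real.sqrt_pos.mpr hp0
  have hchar : ringChar (ZMod p) ≠ 2 := by
    rw [ZMod.ringChar_zmod_n]
    exact hp
  have e0 : ∀ x : ZMod p, (hpoly r).aeval x = val (ZMod p) (2 * g + 1) r x := by
    intro x
    have h := pol_eval p r x
    rw [← h, Polynomial.coe_aeval_eq_eval]
    rfl
  rw [Nat.card_eq_fintype_card, Fintype.card_subtype]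
  have e1 : ((univ : Finset (ZMod p × ZMod p)).filter fun z => z.2 ^ 2 = (hpoly r).aeval z.1).card =
      ∑ x : ZMod p, ((univ : Finset (ZMod p)).filter fun y => y ^ 2 = val (ZMod p) (2 * g + 1) r x).card := by
    rw [Finset.card_filter, ← Finset.univ_product_univ, Finset.sum_product]
    refine Finset.sum_congr rfl fun x _ => ?_
    rw [Finset.card_filter]
    refine Finset.sum_congr rfl fun y _ => ?_
    simp only [e0]
  have e2 : ∀ a : ZMod p, ((((univ : Finset (ZMod p)).filter fun y => y ^ 2 = a).card : ℕ) : ℝ) =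
      (quadraticChar (ZMod p) a : ℝ) + 1 := by
    intro a
    have h := quadraticChar_card_sqrts hchar a
    have h3 : ((univ : Finset (ZMod p)).filter fun y => y ^ 2 = a) = {x : ZMod p | x ^ 2 = a}.toFinset := by
      ext y
      simp
    rw [h3]
    exact_mod_cast h
  rw [e1]
  push_cast
  rw [Finset.sum_congr rfl fun x _ => e2 _, Finset.sum_add_distrib, Finset.sum_const, Finset.card_univ, ZMod.card,
    nsmul_eq_mul, mul_one, SS, ZMod.card]
  field_simp
  ring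

lemma usp_odd {m : ℕ} (hm : Odd m) : usp g m = 0 := by
  unfold usp normal
  rw [if_neg (by rwa [Nat.not_even_iff_odd]), if_neg (by
    rintro rfl
    rcases hm with ⟨k, hk⟩
    omega), sub_zero]

lemma SS_mean (g m : ℕ) (hm : m ≤ 2 * g + 3) : ∃ C : ℝ, 0 ≤ C ∧ ∀ (p : ℕ) [Fact p.Prime], p ≠ 2 →
    |(∑ u : Fin (2 * g + 1) → ZMod p, (-SS p u) ^ m) / (p : ℝ) ^ (2 * g + 1) - usp g m| ≤ C / p := by
  obtain ⟨C, hC, h⟩ := main2 g m hm
  refine ⟨C, hC, fun p _ hp => ?_⟩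
  have hchar : ringChar (ZMod p) ≠ 2 := by
    rw [ZMod.ringChar_zmod_n]
    exact hp
  have h1 := h (ZMod p) hchar
  rw [ZMod.card] at h1
  have e1 : (∑ u : Fin (2 * g + 1) → ZMod p, (-SS p u) ^ m) = (-1) ^ m *
      ∑ u : Fin (2 * g + 1) → ZMod p, (SS p u) ^ m := by
    rw [Finset.mul_sum]
    exact Finset.sum_congr rfl fun u _ => by rw [neg_pow]
  have e2 : usp g m = (-1) ^ m * usp g m := by
    rcases Nat.even_or_odd m with he | ho
    · rw [he.neg_one_pow, one_mul]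
    · rw [usp_odd ho, mul_zero]
  have e3 : (∑ u : Fin (2 * g + 1) → ZMod p, (SS p u) ^ m) = ∑ u : Fin (2 * g + 1) → ZMod p,
      ((∑ x : ZMod p, (quadraticChar (ZMod p) (val (ZMod p) (2 * g + 1) u x) : ℝ)) / Real.sqrt (p : ℝ)) ^ m := by
    refine Finset.sum_congr rfl fun u _ => ?_
    rw [SS, ZMod.card]
  rw [e1, e2, mul_div_assoc, ← mul_sub, abs_mul, abs_pow, abs_neg, abs_one, one_pow, one_mul, e3]
  exact h1

end Prime

variable {g : ℕ} {β : (p : Nat.Primes) → (Fin (2 * g + 1) → ZMod p) → Fin (2 * g) → ℂ}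

/-- the trace -/
noncomputable def TT (β : (p : Nat.Primes) → (Fin (2 * g + 1) → ZMod p) → Fin (2 * g) → ℂ) (p : Nat.Primes)
    (r : Fin (2 * g + 1) → ZMod p) : ℂ := ∑ j, β p r j

lemma TT_norm (h : IsFrobenius g β) (p : Nat.Primes) (r : Fin (2 * g + 1) → ZMod p) : ‖TT β p r‖ ≤ 2 * g := by
  unfold TT
  refine (norm_sum_le _ _).trans ((Finset.sum_le_sum fun j _ => h.bound p r j).trans ?_)
  simp

lemma TT_eq (h : IsFrobenius g β) (p : Nat.Primes) (r : Fin (2 * g + 1) → ZMod p) (hp : (p : ℕ) ≠ 2)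
    (hr : (hpoly r).Separable) : TT β p r = ((-SS (p : ℕ) r : ℝ) : ℂ) := by
  have h1 := h.count p r hp hr (ZMod (p : ℕ)) 1 (by rw [ZMod.card, pow_one])
  have h2 := card_points (p : ℕ) hp r
  have hp0 : (0 : ℝ) < ((p : ℕ) : ℝ) := by exact_mod_cast p.2.pos
  have hs : (0 : ℝ) < Real.sqrt ((p : ℕ) : ℝ) := Real.sqrt_pos.mpr hp0
  have hsc : ((Real.sqrt ((p : ℕ) : ℝ) : ℝ) : ℂ) ≠ 0 := by exact_mod_cast hs.ne'
  have h3 : (Nat.card {z : ZMod (p : ℕ) × ZMod (p : ℕ) // z.2 ^ 2 = (hpoly r).aeval z.1} : ℂ) =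
      (((p : ℕ) + Real.sqrt (p : ℕ) * SS (p : ℕ) r : ℝ) : ℂ) := by
    rw [← h2]
    push_cast
    rfl
  rw [h3] at h1
  simp only [pow_one] at h1
  have h4 : ((Real.sqrt ((p : ℕ) : ℝ) : ℝ) : ℂ) * TT β p r = ((Real.sqrt ((p : ℕ) : ℝ) : ℝ) : ℂ) * ((-SS (p : ℕ) r : ℝ) : ℂ) := by
    unfold TT
    push_cast at h1 ⊢
    linear_combination h1
  exact mul_left_cancel₀ hsc h4

/-- **The moments of the traces.** -/
theorem mean_TT (h : IsFrobenius g β) (m : ℕ) (hm : m ≤ 2 * g + 3) : ∃ C : ℝ, 0 ≤ C ∧ ∀ p : Nat.Primes,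
    ‖EC p (fun r => TT β p r ^ m) - (usp g m : ℂ)‖ ≤ C / ((p : ℕ) : ℝ) := by
  classical
  obtain ⟨C, hC, hS⟩ := SS_mean g m hm
  set A : ℝ := (2 * g : ℝ) ^ m + |usp g m| with hA
  have hA0 : 0 ≤ A := by positivity
  refine ⟨A * (2 * g + 2) + C + 2 * (2 * g : ℝ) ^ m * (2 * g + 1), by positivity, fun p => ?_⟩
  have hp0 : (0 : ℝ) < ((p : ℕ) : ℝ) := by exact_mod_cast p.2.pos
  have hM0 : (0 : ℝ) < ((p : ℕ) : ℝ) ^ (2 * g + 1) := by positivity
  have hg0 : (0 : ℝ) ≤ (2 * g : ℝ) ^ m := by positivity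
  have hT : ∀ r, ‖TT β p r ^ m‖ ≤ (2 * g : ℝ) ^ m := fun r => by
    rw [norm_pow]
    exact pow_le_pow_left₀ (norm_nonneg _) (TT_norm h p r) m
  by_cases hsm : (p : ℕ) = 2 ∨ (p : ℕ) ≤ 2 * g + 1
  · have h1 : ‖EC p (fun r => TT β p r ^ m) - (usp g m : ℂ)‖ ≤ A := by
      refine (norm_sub_le _ _).trans ?_
      rw [Complex.norm_real, Real.norm_eq_abs, hA]
      gcongr
      unfold EC
      rw [norm_div, norm_pow, Complex.norm_natCast, Fintype.card_fin, div_le_iff₀ hM0]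
      refine (norm_sum_le _ _).trans ((Finset.sum_le_sum fun r _ => hT r).trans ?_)
      rw [Finset.sum_const, Finset.card_univ, card_vec, Fintype.card_fin, nsmul_eq_mul, mul_comm]
      push_cast
      exact le_rfl
    refine h1.trans ?_
    rw [le_div_iff₀ hp0]
    have h2 : ((p : ℕ) : ℝ) ≤ 2 * g + 2 := by
      rcases hsm with h | h
      · rw [h]; push_cast; linarith [(Nat.cast_nonneg g : (0 : ℝ) ≤ g)]
      · have : ((p : ℕ) : ℝ) ≤ ((2 * g + 1 : ℕ) : ℝ) := by exact_mod_cast h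
        push_cast at this
        linarith
    have h3 : A * ((p : ℕ) : ℝ) ≤ A * (2 * g + 2) := by gcongr
    have h4 : 0 ≤ 2 * (2 * g : ℝ) ^ m * (2 * g + 1) := by positivity
    linarith
  · push Not at hsm
    obtain ⟨hp2, hpg⟩ := hsm
    have h1 := hS (p : ℕ) hp2
    set B : Finset (Fin (2 * g + 1) → ZMod (p : ℕ)) := univ.filter (fun u => ¬ (pol (p : ℕ) u).Separable) with hB
    have hBc : ((B.card : ℕ) : ℝ) ≤ (2 * g + 1) * ((p : ℕ) : ℝ) ^ (2 * g) := by
      exact_mod_cast bad_card (p : ℕ) hpg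
    have hd : ∀ u : Fin (2 * g + 1) → ZMod (p : ℕ), ‖TT β p u ^ m - (((-SS (p : ℕ) u) ^ m : ℝ) : ℂ)‖ ≤
        if u ∈ B then 2 * (2 * g : ℝ) ^ m else 0 := by
      intro u
      by_cases hu : u ∈ B
      · rw [if_pos hu]
        refine (norm_sub_le _ _).trans ?_
        have h2 : ‖(((-SS (p : ℕ) u) ^ m : ℝ) : ℂ)‖ ≤ (2 * g : ℝ) ^ m := by
          rw [Complex.norm_real, Real.norm_eq_abs, abs_pow, abs_neg]
          exact pow_le_pow_left₀ (abs_nonneg _) (weil (p : ℕ) hp2 u) m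
        linarith [hT u]
      · rw [if_neg hu]
        have hsep : (hpoly u).Separable := by
          by_contra hn
          exact hu (by rw [hB, Finset.mem_filter]; exact ⟨mem_univ _, hn⟩)
        rw [TT_eq h p u hp2 hsep]
        push_cast
        rw [sub_self, norm_zero]
    have e1 : EC p (fun r => TT β p r ^ m) - (usp g m : ℂ) =
        (∑ u : Fin (2 * g + 1) → ZMod (p : ℕ), (TT β p u ^ m - (((-SS (p : ℕ) u) ^ m : ℝ) : ℂ))) /
          ((p : ℕ) : ℂ) ^ (2 * g + 1) +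
        (((∑ u : Fin (2 * g + 1) → ZMod (p : ℕ), (-SS (p : ℕ) u) ^ m) / ((p : ℕ) : ℝ) ^ (2 * g + 1) - usp g m : ℝ) : ℂ) := by
      unfold EC
      rw [Fintype.card_fin, Finset.sum_sub_distrib]
      push_cast
      ring
    rw [e1]
    refine (norm_add_le _ _).trans ?_
    have t1 : ‖(∑ u : Fin (2 * g + 1) → ZMod (p : ℕ), (TT β p u ^ m - (((-SS (p : ℕ) u) ^ m : ℝ) : ℂ))) /
          ((p : ℕ) : ℂ) ^ (2 * g + 1)‖ ≤ 2 * (2 * g : ℝ) ^ m * (2 * g + 1) / ((p : ℕ) : ℝ) := by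
      rw [norm_div, norm_pow, Complex.norm_natCast, div_le_div_iff₀ hM0 hp0]
      have h2 : ‖∑ u : Fin (2 * g + 1) → ZMod (p : ℕ), (TT β p u ^ m - (((-SS (p : ℕ) u) ^ m : ℝ) : ℂ))‖ ≤
          B.card * (2 * (2 * g : ℝ) ^ m) := by
        refine (norm_sum_le _ _).trans ((Finset.sum_le_sum fun u _ => hd u).trans ?_)
        rw [← Finset.sum_filter, Finset.filter_mem_eq_inter, Finset.univ_inter, Finset.sum_const, nsmul_eq_mul]
      calc _ ≤ (B.card * (2 * (2 * g : ℝ) ^ m)) * ((p : ℕ) : ℝ) := by gcongr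
        _ ≤ ((2 * g + 1) * ((p : ℕ) : ℝ) ^ (2 * g) * (2 * (2 * g : ℝ) ^ m)) * ((p : ℕ) : ℝ) := by gcongr
        _ = _ := by ring
    have t2 : ‖(((∑ u : Fin (2 * g + 1) → ZMod (p : ℕ), (-SS (p : ℕ) u) ^ m) / ((p : ℕ) : ℝ) ^ (2 * g + 1) - usp g m : ℝ) : ℂ)‖ ≤
        C / ((p : ℕ) : ℝ) := by
      rw [Complex.norm_real, Real.norm_eq_abs]
      exact h1
    refine (add_le_add t1 t2).trans ?_
    rw [← add_div]
    apply div_le_div_of_nonneg_right _ hp0.le
    have h5 : 0 ≤ A * (2 * g + 2) := by positivity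
    linarith

end Run7.h113.HC
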