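import Pool.Agent.Run7.h113.HC.Blk
import Pool.Agent.Run7.h712.HE.Prd
import Pool.Agent.Run7.h712.HE.Cnt

/-!
# The mean values of the traces on tensor products of exterior powers of `H¹` of products of hyperelliptic Jacobians

The joint moments of the coefficients of the L-polynomials are those of helper712 (`Run7/h712/HE/Prd.lean`: `PC_mom`);
`EM_av`, `Gd` and `bad_av` are copied from `Run7/h712/HE/Fam.lean`.
-/

set_option autoImplicit false
set_option linter.unusedSectionVars false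

namespace Run7.h113.HC

open Finset
open Run7.h113.FE
open Pool.Agent.Run7.h712.HE (coe coe_succ sn sP PC PC_bound PC_mom gR deg SS points points_eq bad_card sqrt_pos
  one_le_sqrt pol)
open Pool.Agent.Y722.HS (EM)
open Q282.CL (av av_sum av_const)

/-! ### Newton's identities -/

section Newton

variable {E : Type} [Fintype E] [DecidableEq E] (b : E → ℂ)

/-- the elementary symmetric functions -/
noncomputable def ee (k : ℕ) : ℂ := ∑ S ∈ powersetCard k (univ : Finset E), ∏ x ∈ S, b x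

lemma ee_zero : ee b 0 = 1 := by
  unfold ee
  simp

lemma newton_aux (k : ℕ) : ((k : ℂ) + 1) * ((-1) ^ (k + 1) * ee b (k + 1)) =
    ∑ i ∈ range (k + 1), (-1) ^ i * ee b i * -(∑ x, b x ^ (k + 1 - i)) := by
  have h1 := congrArg (MvPolynomial.aeval b) (MvPolynomial.mul_esymm_eq_sum E ℂ (k + 1))
  have he : ∀ n, MvPolynomial.aeval b (MvPolynomial.esymm E ℂ n) = ee b n := by
    intro n
    unfold MvPolynomial.esymm ee
    rw [map_sum]
    refine Finset.sum_congr rfl fun S _ => ?_
    rw [map_prod]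
    exact Finset.prod_congr rfl fun x _ => MvPolynomial.aeval_X _ _
  have hp : ∀ n, MvPolynomial.aeval b (MvPolynomial.psum E ℂ n) = ∑ x, b x ^ n := by
    intro n
    unfold MvPolynomial.psum
    rw [map_sum]
    refine Finset.sum_congr rfl fun x _ => ?_
    rw [map_pow, MvPolynomial.aeval_X]
  simp only [map_mul, map_sum, map_pow, map_neg, map_one, map_natCast, he, hp] at h1
  rw [Finset.sum_filter, Finset.Nat.sum_antidiagonal_eq_sum_range_succ
    (fun i j => if i < k + 1 then (-1) ^ i * ee b i * ∑ x, b x ^ j else 0), Finset.sum_range_succ] at h1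
  rw [if_neg (lt_irrefl _), add_zero] at h1
  have h2 : ∑ i ∈ range (k + 1), (if i < k + 1 then (-1) ^ i * ee b i * ∑ x, b x ^ (k + 1 - i) else 0) =
      ∑ i ∈ range (k + 1), (-1) ^ i * ee b i * ∑ x, b x ^ (k + 1 - i) :=
    Finset.sum_congr rfl fun i hi => if_pos (Finset.mem_range.mp hi)
  rw [h2] at h1
  push_cast at h1
  have h3 : ∑ i ∈ range (k + 1), (-1) ^ i * ee b i * -(∑ x, b x ^ (k + 1 - i)) =
      -∑ i ∈ range (k + 1), (-1) ^ i * ee b i * ∑ x, b x ^ (k + 1 - i) := by
    rw [← Finset.sum_neg_distrib]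
    exact Finset.sum_congr rfl fun i _ => by ring
  rw [h3]
  have h4 : (-1 : ℂ) ^ (k + 1) * (-1) ^ (k + 1 + 1) = -1 := by
    rw [← pow_add]
    have : k + 1 + (k + 1 + 1) = 2 * (k + 1) + 1 := by ring
    rw [this, pow_succ, pow_mul]
    norm_num
  calc ((k : ℂ) + 1) * ((-1) ^ (k + 1) * ee b (k + 1)) = (-1) ^ (k + 1) * (((k : ℂ) + 1) * ee b (k + 1)) := by ring
    _ = (-1) ^ (k + 1) * ((-1) ^ (k + 1 + 1) * ∑ i ∈ range (k + 1), (-1) ^ i * ee b i * ∑ x, b x ^ (k + 1 - i)) := by
        rw [h1]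
    _ = ((-1 : ℂ) ^ (k + 1) * (-1) ^ (k + 1 + 1)) * ∑ i ∈ range (k + 1), (-1) ^ i * ee b i * ∑ x, b x ^ (k + 1 - i) := by
        ring
    _ = _ := by rw [h4]; ring

/-- The coefficients of the characteristic polynomial from the power sums. -/
lemma newton (t : ℕ → ℝ) (n : ℕ) (h : ∀ j, j < n → ∑ x, b x ^ (j + 1) = ((-t j : ℝ) : ℂ)) :
    ∀ k, k ≤ n → (-1) ^ k * ee b k = ((coe t k : ℝ) : ℂ) := by
  intro k
  induction k using Nat.strong_induction_on with
  | _ k ih =>
    intro hk
    rcases k with _ | k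
    · rw [pow_zero, one_mul, ee_zero, coe]
      norm_num
    · have h1 := newton_aux b k
      have h2 := coe_succ t k
      have h3 : ((k : ℂ) + 1) ≠ 0 := by exact_mod_cast Nat.succ_ne_zero k
      apply mul_left_cancel₀ h3
      rw [h1]
      have h4 : (((k : ℂ) + 1) * ((coe t (k + 1) : ℝ) : ℂ)) = ((∑ j ∈ range (k + 1), t j * coe t (k - j) : ℝ) : ℂ) := by
        rw [← h2]
        push_cast
        ring
      rw [h4, ← Finset.sum_range_reflect]
      push_cast
      refine Finset.sum_congr rfl fun j hj => ?_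
      have hj' : j < k + 1 := Finset.mem_range.mp hj
      have e2 : k + 1 - (k - j) = j + 1 := by omega
      rw [e2, ih (k - j) (by omega) (by omega), h j (by omega)]
      push_cast
      ring

end Newton

/-! ### the power sums of the eigenvalues -/

section Power

variable {g : ℕ} {β : (p : Nat.Primes) → (Fin (2 * g + 1) → ZMod p) → Fin (2 * g) → ℂ}

lemma psum_eq (h : IsFrobenius g β) (p : Nat.Primes) (u : Fin (2 * g + 1) → ZMod p) (hp : (p : ℕ) ≠ 2)
    (hu : (hpoly u).Separable) (j : ℕ) : ∑ x, β p u x ^ (j + 1) = ((-sn (p : ℕ) u j : ℝ) : ℂ) := by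
  classical
  have hk : Nat.card (GaloisField (p : ℕ) (j + 1)) = (p : ℕ) ^ (j + 1) := GaloisField.card (p : ℕ) (j + 1) (by omega)
  have hfin : Finite (GaloisField (p : ℕ) (j + 1)) := inferInstance
  letI : Fintype (GaloisField (p : ℕ) (j + 1)) := Fintype.ofFinite _
  have hk' : Fintype.card (GaloisField (p : ℕ) (j + 1)) = (p : ℕ) ^ (j + 1) := by rw [← Nat.card_eq_fintype_card, hk]
  have h1 := h.count p u hp hu (GaloisField (p : ℕ) (j + 1)) (j + 1) hk'
  have hc : ∀ i, (((u i).val : ℤ) : ZMod (p : ℕ)) = u i := fun i => by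
    rw [Int.cast_natCast, ZMod.natCast_zmod_val]
  have h2 := points_eq (p := (p : ℕ)) hp (d := 2 * g) (fun i => ((u i).val : ℤ)) (j := j + 1) (by omega)
  have e1 : (fun i => ((((u i).val : ℤ)) : ZMod (p : ℕ))) = u := funext hc
  rw [e1] at h2
  have e2 : ∀ x : GaloisField (p : ℕ) (j + 1), (hpoly u).aeval x =
      x ^ (2 * g + 1) + ∑ i : Fin (2 * g + 1), ((((u i).val : ℤ)) : GaloisField (p : ℕ) (j + 1)) * x ^ (i : ℕ) := by
    intro x
    unfold hpoly
    rw [map_add, map_pow, Polynomial.aeval_X, map_sum]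
    congr 1
    refine Finset.sum_congr rfl fun i _ => ?_
    rw [map_mul, Polynomial.aeval_C, map_pow, Polynomial.aeval_X]
    congr 1
    rw [← map_intCast (algebraMap (ZMod (p : ℕ)) (GaloisField (p : ℕ) (j + 1))), hc]
  have e3 : (Nat.card {z : GaloisField (p : ℕ) (j + 1) × GaloisField (p : ℕ) (j + 1) // z.2 ^ 2 = (hpoly u).aeval z.1} : ℂ) =
      ((points (fun i => ((u i).val : ℤ)) (p : ℕ) (j + 1) : ℝ) : ℂ) := by
    unfold points
    simp only [e2]
    norm_num
  rw [e3, h2] at h1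
  have hp0 : (0 : ℝ) < ((p : ℕ) : ℝ) := by exact_mod_cast p.2.pos
  have hs : (0 : ℝ) < Real.sqrt ((p : ℕ) : ℝ) ^ (j + 1) := pow_pos (Real.sqrt_pos.mpr hp0) _
  have hsc : (((Real.sqrt ((p : ℕ) : ℝ) : ℝ) : ℂ) ^ (j + 1)) ≠ 0 := by exact_mod_cast hs.ne'
  apply mul_left_cancel₀ hsc
  unfold sn
  push_cast at h1 ⊢
  rw [mul_neg, mul_div_cancel₀ _ hsc]
  linear_combination h1

end Power

/-! ### products of Jacobians -/

section Blocks

variable {R : Type} [Fintype R] [DecidableEq R] {g : R → ℕ}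

/-- the parameters of the factors -/
def cur {A : Type} (u : (Σ l : R, Fin (2 * g l + 1)) → A) (l : R) (i : Fin (2 * g l + 1)) : A := u ⟨l, i⟩

theorem EM_av (p : ℕ) [Fact p.Prime] (F : (∀ l, Fin (2 * g l + 1) → ZMod p) → ℝ) :
    EM p (fun u : (Σ l : R, Fin (2 * g l + 1)) → ZMod p => F (cur u)) = av F := by
  unfold EM av
  congr 1
  · exact Fintype.sum_equiv (Equiv.piCurry fun (l : R) (_ : Fin (2 * g l + 1)) => ZMod p) _ _ fun u => rfl
  · have h1 : Fintype.card (∀ l, Fin (2 * g l + 1) → ZMod p) = Fintype.card ((Σ l : R, Fin (2 * g l + 1)) → ZMod p) :=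
      Fintype.card_congr (Equiv.piCurry fun (l : R) (_ : Fin (2 * g l + 1)) => ZMod p).symm
    rw [h1, Fintype.card_fun, ZMod.card]
    push_cast
    rfl

/-- the reductions of all the curves are smooth -/
def Gd (p : ℕ) [Fact p.Prime] (v : ∀ l, Fin (2 * g l + 1) → ZMod p) : Prop := p ≠ 2 ∧ ∀ l, (pol p (v l)).Separable

open Classical in
theorem bad_av (p : ℕ) [hp : Fact p.Prime] :
    av (fun v : ∀ l, Fin (2 * g l + 1) → ZMod p => if Gd p v then (0 : ℝ) else 1) ≤ (∑ l, (2 * (g l : ℝ) + 1) + 2) / Real.sqrt p := by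
  have hs := sqrt_pos p hp
  have hs1 := one_le_sqrt p hp
  have hp0 : (0 : ℝ) < p := by exact_mod_cast hp.out.pos
  have hsp : Real.sqrt p ≤ p := by
    have := Real.mul_self_sqrt hp0.le
    nlinarith
  have hne : Nonempty (∀ l, Fin (2 * g l + 1) → ZMod p) := ⟨fun _ _ => 0⟩
  by_cases h : p ≠ 2 ∧ ∀ l, 2 * g l + 1 < p
  · have h1 : av (fun v : ∀ l, Fin (2 * g l + 1) → ZMod p => if Gd p v then (0 : ℝ) else 1) ≤
        av (fun v : ∀ l, Fin (2 * g l + 1) → ZMod p => ∑ l, if (pol p (v l)).Separable then (0 : ℝ) else 1) := by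
      refine Q282.CL.av_mono fun v => ?_
      have h0 : ∀ l, 0 ≤ (if (pol p (v l)).Separable then (0 : ℝ) else 1) := fun l => by split_ifs <;> norm_num
      by_cases hg : Gd p v
      · rw [if_pos hg]
        exact sum_nonneg fun l _ => h0 l
      · rw [if_neg hg]
        have h2 : ∃ l, ¬ (pol p (v l)).Separable := by
          by_contra h3
          push Not at h3
          exact hg ⟨h.1, h3⟩
        obtain ⟨l, hl⟩ := h2
        have h3 := single_le_sum (f := fun l => if (pol p (v l)).Separable then (0 : ℝ) else 1) (fun l _ => h0 l) (mem_univ l)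
        refine le_trans (le_of_eq ?_) h3
        rw [if_neg hl]
    refine h1.trans ?_
    rw [av_sum]
    have h2 : ∀ l, av (fun v : ∀ l, Fin (2 * g l + 1) → ZMod p => if (pol p (v l)).Separable then (0 : ℝ) else 1) ≤ (2 * (g l : ℝ) + 1) / Real.sqrt p := by
      intro l
      have h3 := Run7.h3.ST.av_hom (Pi.evalAddMonoidHom (fun l => Fin (2 * g l + 1) → ZMod p) l) (fun w => by
        refine ⟨Function.update (0 : ∀ l, Fin (2 * g l + 1) → ZMod p) l w, ?_⟩
        show Function.update (0 : ∀ l, Fin (2 * g l + 1) → ZMod p) l w l = w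
        rw [Function.update_self])
        (fun w : Fin (2 * g l + 1) → ZMod p => if (pol p w).Separable then (0 : ℝ) else 1)
      have h4 : av (fun v : ∀ l, Fin (2 * g l + 1) → ZMod p => if (pol p (v l)).Separable then (0 : ℝ) else 1) =
          av (fun w : Fin (2 * g l + 1) → ZMod p => if (pol p w).Separable then (0 : ℝ) else 1) := h3
      rw [h4]
      unfold av
      have h5 : ∑ w : Fin (2 * g l + 1) → ZMod p, (if (pol p w).Separable then (0 : ℝ) else 1) =
          ((univ : Finset (Fin (2 * g l + 1) → ZMod p)).filter (fun u => ¬ (pol p u).Separable)).card := by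
        rw [card_filter]
        push_cast
        refine sum_congr rfl fun w _ => ?_
        by_cases hw : (pol p w).Separable
        · rw [if_pos hw, if_neg (not_not.2 hw)]
        · rw [if_neg hw, if_pos hw]
      rw [h5, Fintype.card_pi_const, ZMod.card]
      have h6 := bad_card p (h.2 l)
      have h7 : ((((univ : Finset (Fin (2 * g l + 1) → ZMod p)).filter (fun u => ¬ (pol p u).Separable)).card : ℕ) : ℝ) ≤
          (2 * (g l : ℝ) + 1) * (p : ℝ) ^ (2 * g l) := by exact_mod_cast h6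
      have h8 : (0 : ℝ) < ((p ^ (2 * g l + 1) : ℕ) : ℝ) := by
        push_cast
        positivity
      rw [div_le_div_iff₀ h8 hs]
      push_cast
      calc _ ≤ (2 * (g l : ℝ) + 1) * (p : ℝ) ^ (2 * g l) * Real.sqrt p := mul_le_mul_of_nonneg_right h7 hs.le
        _ ≤ (2 * (g l : ℝ) + 1) * (p : ℝ) ^ (2 * g l) * p := mul_le_mul_of_nonneg_left hsp (by positivity)
        _ = _ := by ring
    refine (sum_le_sum fun l _ => h2 l).trans ?_
    rw [← sum_div]
    exact div_le_div_of_nonneg_right (by linarith) hs.le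
  · have h1 : av (fun v : ∀ l, Fin (2 * g l + 1) → ZMod p => if Gd p v then (0 : ℝ) else 1) ≤ 1 := by
      refine (Q282.CL.av_mono (g := fun _ => (1 : ℝ)) fun v => ?_).trans (le_of_eq (av_const (1 : ℝ)))
      split_ifs <;> norm_num
    refine h1.trans ?_
    rw [le_div_iff₀ hs, one_mul]
    refine hsp.trans ?_
    have h0 : 0 ≤ ∑ l, (2 * (g l : ℝ) + 1) := sum_nonneg fun l _ => by positivity
    by_cases h3 : p = 2
    · rw [h3]
      push_cast
      linarith
    · have h4 : ∃ l, p ≤ 2 * g l + 1 := by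
        by_contra h5
        push Not at h5
        exact h ⟨h3, h5⟩
      obtain ⟨l, hl⟩ := h4
      have h5 : (p : ℝ) ≤ 2 * g l + 1 := by exact_mod_cast hl
      have h6 : 2 * (g l : ℝ) + 1 ≤ ∑ l, (2 * (g l : ℝ) + 1) :=
        single_le_sum (f := fun l => 2 * (g l : ℝ) + 1) (fun l _ => by positivity) (mem_univ l)
      linarith

/-! ### parity -/

variable {ι : Type} [Fintype ι] [DecidableEq ι]

/-- The sum of the degrees of the vertices of a multigraph is even. -/
lemma even_deg (e : Sym2 ι → ℕ) : Even (∑ i, deg e i) := by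
  have h0 : (((∑ i, deg e i : ℕ)) : ZMod 2) = 0 := by
    unfold deg
    push_cast
    rw [Finset.sum_add_distrib]
    have h1 : ∑ i, ∑ i', ((e s(i, i') : ℕ) : ZMod 2) = ∑ i, ((e s(i, i) : ℕ) : ZMod 2) := by
      rw [← Finset.sum_product' (f := fun i i' => ((e s(i, i') : ℕ) : ZMod 2)),
        ← Finset.sum_filter_add_sum_filter_not _ (fun x : ι × ι => x.1 = x.2)]
      have h2 : ∑ x ∈ (univ ×ˢ univ : Finset (ι × ι)).filter (fun x => ¬ x.1 = x.2), ((e s(x.1, x.2) : ℕ) : ZMod 2) = 0 := by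
        refine Finset.sum_involution (fun x _ => (x.2, x.1)) (fun x _ => ?_) (fun x hx _ => ?_) (fun x hx => ?_)
          (fun x _ => rfl)
        · have h3 : s(x.2, x.1) = s(x.1, x.2) := Sym2.eq_swap
          simp only [h3]
          exact CharTwo.add_self_eq_zero _
        · rw [Finset.mem_filter] at hx
          intro h3
          have := congrArg Prod.fst h3
          exact hx.2 this.symm
        · rw [Finset.mem_filter] at hx ⊢
          exact ⟨by simp, fun h3 => hx.2 h3.symm⟩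
      rw [h2, add_zero]
      refine Finset.sum_bij' (fun x _ => x.1) (fun i _ => (i, i)) (fun x _ => mem_univ _) (fun i _ => by simp)
        (fun x hx => ?_) (fun i _ => rfl) (fun x hx => ?_)
      · rw [Finset.mem_filter] at hx
        exact Prod.ext rfl hx.2
      · rw [Finset.mem_filter] at hx
        rw [← hx.2]
    rw [h1]
    exact CharTwo.add_self_eq_zero _
  exact (ZMod.natCast_eq_zero_iff_even).mp h0

/-- There are no multigraphs with an odd sum of the degrees. -/
lemma gR_odd (k : ι → ℕ) (hk : Odd (∑ i, k i)) : gR R k = 0 := by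
  unfold gR
  have h1 : {e : R → Sym2 ι → ℕ | ∀ i, ∑ l, deg (e l) i = k i} = ∅ := by
    rw [Set.eq_empty_iff_forall_notMem]
    intro e he
    have h2 : ∑ i, k i = ∑ l, ∑ i, deg (e l) i := by
      rw [Finset.sum_comm]
      exact Finset.sum_congr rfl fun i _ => (he i).symm
    rw [h2] at hk
    exact (Nat.not_even_iff_odd.mpr hk) (Finset.even_sum _ fun l _ => even_deg (e l))
  rw [h1, Set.ncard_empty]

lemma sum_prod_le {E : Type} (F : Finset (Finset E)) (b : E → ℂ) (hb : ∀ x, ‖b x‖ ≤ 1) :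
    ‖∑ S ∈ F, ∏ x ∈ S, b x‖ ≤ (F.card : ℝ) := by
  have h1 : ∀ S ∈ F, ‖∏ x ∈ S, b x‖ ≤ (1 : ℝ) := fun S _ => by
    rw [norm_prod]
    exact Finset.prod_le_one (fun x _ => norm_nonneg _) fun x _ => hb x
  have h2 := Finset.sum_le_card_nsmul F (fun S => ‖∏ x ∈ S, b x‖) 1 h1
  rw [nsmul_eq_mul, mul_one] at h2
  exact (norm_sum_le _ _).trans h2

/-! ### the mean value -/

/-- The normalised eigenvalues of Frobenius on `H¹` of the product of the Jacobians. -/
noncomputable def allB (β : ∀ l, (p : Nat.Primes) → (Fin (2 * g l + 1) → ZMod p) → Fin (2 * g l) → ℂ)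
    (p : Nat.Primes) (r : (Σ l, Fin (2 * g l + 1)) → ZMod p) (x : Σ l, Fin (2 * g l)) : ℂ :=
  β x.1 p (cur r x.1) x.2

variable {β : ∀ l, (p : Nat.Primes) → (Fin (2 * g l + 1) → ZMod p) → Fin (2 * g l) → ℂ}

lemma allB_norm (h : ∀ l, IsFrobenius (g l) (β l)) (p : Nat.Primes) (r : (Σ l, Fin (2 * g l + 1)) → ZMod p)
    (x : Σ l, Fin (2 * g l)) : ‖allB β p r x‖ ≤ 1 := (h x.1).bound p _ _

lemma trace_good (h : ∀ l, IsFrobenius (g l) (β l)) (p : Nat.Primes) (r : (Σ l, Fin (2 * g l + 1)) → ZMod p)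
    (hr : Gd (p : ℕ) (cur r)) (k : ι → ℕ) : ∏ i, ee (allB β p r) (k i) =
      (((-1) ^ (∑ i, k i) * PC (p : ℕ) (d := fun l => 2 * g l) k (cur r) : ℝ) : ℂ) := by
  have h1 : ∀ n, ∑ x, allB β p r x ^ (n + 1) = ((-sP (p : ℕ) (d := fun l => 2 * g l) (cur r) n : ℝ) : ℂ) := by
    intro n
    rw [Fintype.sum_sigma]
    unfold sP allB
    push_cast
    rw [← Finset.sum_neg_distrib]
    refine Finset.sum_congr rfl fun l _ => ?_
    have h2 := psum_eq (h l) p (cur r l) hr.1 (hr.2 l) n
    rw [h2]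
    push_cast
    rfl
  have h2 : ∀ i, ee (allB β p r) (k i) = (-1) ^ (k i) * ((coe (sP (p : ℕ) (d := fun l => 2 * g l) (cur r)) (k i) : ℝ) : ℂ) := by
    intro i
    rw [← newton (allB β p r) _ (k i) (fun j _ => h1 j) (k i) le_rfl, ← mul_assoc, ← mul_pow]
    norm_num
  rw [Finset.prod_congr rfl fun i _ => h2 i, Finset.prod_mul_distrib, Finset.prod_pow_eq_pow_sum]
  unfold PC
  push_cast
  rfl

lemma EC_real {κ : Type} [Fintype κ] [DecidableEq κ] (p : Nat.Primes) (f : (κ → ZMod p) → ℝ) :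
    EC p (fun r => (f r : ℂ)) = ((EM (p : ℕ) f : ℝ) : ℂ) := by
  unfold EC EM
  push_cast
  rfl

end Blocks

end Run7.h113.HC
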